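import Pool.Agent.Work.MP_3a76b1_co.O.Grow

/-!
Elimination of the coordinates one after the other: nonvanishing of the rigidity determinant
for even exponents with signs.
-/

namespace Pool.Agent.Work.MP_3a76b1_co

open Finset Function

section Elim

variable {V : Type*} [Fintype V] [DecidableEq V] {r : V} {d : ℕ}

lemma class_card (hd tl : Wd r d → V) (κ : Wd r d → Fin d) (h : coef hd tl κ ≠ 0) (k : Fin d) :
    (univ.filter (fun i => κ i = k)).card + 1 = Fintype.card V := by
  have h1 := card_nr r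
  have h2 : ∑ k : Fin d, (univ.filter (fun i => κ i = k)).card = Fintype.card (Wd r d) := by
    rw [← Finset.card_univ]
    exact (Finset.card_eq_sum_card_fiberwise (f := κ) (t := univ) (fun _ _ => by simp)).symm
  have h3 : Fintype.card (Wd r d) = ∑ _k : Fin d, (Fintype.card V - 1) := by
    rw [Fintype.card_prod, Finset.sum_const, Finset.card_univ, Fintype.card_fin, smul_eq_mul,
      mul_comm]
    congr 1
    omega
  have h4 : ∀ k ∈ (univ : Finset (Fin d)), (univ.filter (fun i => κ i = k)).card ≤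
      Fintype.card V - 1 := by
    intro k _
    have := class_le hd tl κ h k
    omega
  have h5 := (Finset.sum_eq_sum_iff_of_le h4).1 (by rw [h2, h3]) k (Finset.mem_univ _)
  omega

/-- signed power of a difference. -/
noncomputable def ph (a : ℕ) (hd tl : Wd r d → V) (t : V → ℝ) (i : Wd r d) : ℝ :=
  |t (hd i) - t (tl i)| ^ (a - 1) * (t (hd i) - t (tl i))

/-- weights with the coordinates in K given by points and the others by a colouring. -/
noncomputable def wK (a : ℕ) (hd tl : Wd r d → V) (κ0 : Wd r d → Fin d) (K : Finset (Fin d))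
    (x : V → Fin d → ℝ) (i : Wd r d) (k : Fin d) : ℝ :=
  if k ∈ K then ph a hd tl (fun v => x v k) i else if κ0 i = k then 1 else 0

lemma elim_step {a : ℕ} (ha : Even a) (ha2 : 2 ≤ a) (hd tl : Wd r d → V)
    (hne : ∀ i, hd i ≠ tl i) (hinj : Injective (fun i => s(hd i, tl i)))
    (κ0 : Wd r d → Fin d) (hκ0 : ∀ k, LinearIndepOn ℝ (inc hd tl) {i | κ0 i = k})
    {K : Finset (Fin d)} {k : Fin d} (hk : k ∉ K) {x : V → Fin d → ℝ}
    (hx : (Mat hd tl (wK a hd tl κ0 K x)).det ≠ 0) :
    ∃ t : V → ℝ, Injective t ∧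
      (Mat hd tl (wK a hd tl κ0 (insert k K) (fun v => update (x v) k (t v)))).det ≠ 0 := by
  by_contra hcon
  push Not at hcon
  have hcoef0 := coef_ne_zero hd tl κ0 hκ0
  let cls : (Wd r d → Fin d) → Finset (Wd r d) := fun κ => univ.filter (fun i => κ i = k)
  have hcls : ∀ κ i, i ∈ cls κ ↔ κ i = k := by
    intro κ i
    simp [cls]
  let c : Finset (Wd r d) → ℝ := fun T => ∑ κ ∈ univ.filter (fun κ => cls κ = T),
    (∏ i ∈ Tᶜ, wK a hd tl κ0 K x i (κ i)) * coef hd tl κ
  have hc : ∀ T, c T ≠ 0 → T.card + 1 = Fintype.card V := by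
    intro T hT
    obtain ⟨κ, hκ, hκ2⟩ := Finset.exists_ne_zero_of_sum_ne_zero hT
    have h1 : cls κ = T := (Finset.mem_filter.1 hκ).2
    rw [← h1]
    exact class_card hd tl κ (right_ne_zero_of_mul hκ2) k
  -- weights after the step
  have hwk : ∀ (t : V → ℝ) i, wK a hd tl κ0 (insert k K) (fun v => update (x v) k (t v)) i k =
      ph a hd tl t i := by
    intro t i
    rw [wK, if_pos (Finset.mem_insert_self _ _)]
    simp only [update_self]
  have hwl : ∀ (t : V → ℝ) i l, l ≠ k → wK a hd tl κ0 (insert k K) (fun v => update (x v) k (t v)) i l =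
      wK a hd tl κ0 K x i l := by
    intro t i l hl
    rw [wK, wK]
    simp only [update_of_ne hl, Finset.mem_insert, hl, false_or]
  have h0 : ∀ t : V → ℝ, Injective t → ∑ T : Finset (Wd r d), c T *
      ∏ i ∈ T, (|t (hd i) - t (tl i)| ^ (a - 1) * (t (hd i) - t (tl i))) = 0 := by
    intro t ht
    have h1 := hcon t ht
    rw [det_expand] at h1
    rw [← h1, ← Finset.sum_fiberwise_of_maps_to (s := (univ : Finset (Wd r d → Fin d)))
      (t := (univ : Finset (Finset (Wd r d)))) (g := cls) (fun _ _ => Finset.mem_univ _)]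
    refine Finset.sum_congr rfl (fun T _ => ?_)
    simp only [c]
    rw [Finset.sum_mul]
    refine Finset.sum_congr rfl (fun κ hκ => ?_)
    have h2 : cls κ = T := (Finset.mem_filter.1 hκ).2
    rw [← Finset.prod_mul_prod_compl T]
    have h3 : ∏ i ∈ T, wK a hd tl κ0 (insert k K) (fun v => update (x v) k (t v)) i (κ i) =
        ∏ i ∈ T, (|t (hd i) - t (tl i)| ^ (a - 1) * (t (hd i) - t (tl i))) := by
      refine Finset.prod_congr rfl (fun i hi => ?_)
      have h4 : κ i = k := (hcls κ i).1 (by rw [h2]; exact hi)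
      rw [h4, hwk, ph]
    have h5 : ∏ i ∈ Tᶜ, wK a hd tl κ0 (insert k K) (fun v => update (x v) k (t v)) i (κ i) =
        ∏ i ∈ Tᶜ, wK a hd tl κ0 K x i (κ i) := by
      refine Finset.prod_congr rfl (fun i hi => ?_)
      rw [Finset.mem_compl] at hi
      exact hwl t i (κ i) (fun h4 => hi (by rw [← h2]; exact (hcls κ i).2 h4))
    rw [h3, h5]
    ring
  have hT0 : LinearIndepOn ℝ (inc hd tl) (cls κ0 : Set (Wd r d)) := by
    have : (cls κ0 : Set (Wd r d)) = {i | κ0 i = k} := by
      ext i
      simp [cls]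
    rw [this]
    exact hκ0 k
  have h1 := tree_indep ha ha2 hd tl hne hinj c hc h0 hT0
  apply hx
  rw [det_expand, ← h1]
  simp only [c]
  rw [Finset.sum_filter]
  refine Finset.sum_congr rfl (fun κ _ => ?_)
  split_ifs with h2
  · congr 1
    rw [← Finset.prod_mul_prod_compl (cls κ0)]
    have h3 : ∏ i ∈ cls κ0, wK a hd tl κ0 K x i (κ i) = 1 := by
      refine Finset.prod_eq_one (fun i hi => ?_)
      have h4 : κ i = k := (hcls κ i).1 (by rw [h2]; exact hi)
      have h5 : κ0 i = k := (hcls κ0 i).1 hi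
      rw [h4, wK, if_neg hk, if_pos h5]
    rw [h3, one_mul]
  · by_cases h3 : coef hd tl κ = 0
    · rw [h3, mul_zero]
    · have h4 : ¬ cls κ ⊆ cls κ0 := by
        intro h5
        apply h2
        refine Finset.eq_of_subset_of_card_le h5 ?_
        have h6 := class_card hd tl κ h3 k
        have h7 := class_card hd tl κ0 hcoef0 k
        simp only [cls]
        omega
      rw [Finset.not_subset] at h4
      obtain ⟨i, hi, hi0⟩ := h4
      rw [Finset.prod_eq_zero (Finset.mem_univ i), zero_mul]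
      rw [(hcls κ i).1 hi, wK, if_neg hk, if_neg (fun h => hi0 ((hcls κ0 i).2 h))]

theorem exists_det_ne_zero_even {a : ℕ} (ha : Even a) (ha2 : 2 ≤ a) (hd tl : Wd r d → V)
    (hne : ∀ i, hd i ≠ tl i) (hinj : Injective (fun i => s(hd i, tl i)))
    (hsp : Sparse hd tl d) :
    ∃ x : V → Fin d → ℝ, (∀ i k, x (hd i) k ≠ x (tl i) k) ∧
      (Mat hd tl (fun i k => |x (hd i) k - x (tl i) k| ^ (a - 1) *
        (x (hd i) k - x (tl i) k))).det ≠ 0 := by
  classical
  obtain ⟨κ0, hκ0⟩ := nw hd tl d hsp
  have hcoef0 := coef_ne_zero hd tl κ0 hκ0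
  have main : ∀ K : Finset (Fin d), ∃ x : V → Fin d → ℝ,
      (∀ k ∈ K, Injective (fun v => x v k)) ∧ (Mat hd tl (wK a hd tl κ0 K x)).det ≠ 0 := by
    intro K
    induction K using Finset.induction_on with
    | empty =>
      refine ⟨0, by simp, ?_⟩
      have h1 : wK a hd tl κ0 ∅ 0 = fun i => Pi.single (κ0 i) (1 : ℝ) := by
        funext i k
        rw [wK, if_neg (Finset.notMem_empty k), Pi.single_apply]
        simp only [eq_comm]
      rw [h1]
      exact hcoef0
    | insert k K hk ih =>
      obtain ⟨x, hx1, hx2⟩ := ih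
      obtain ⟨t, ht1, ht2⟩ := elim_step ha ha2 hd tl hne hinj κ0 hκ0 hk hx2
      refine ⟨fun v => update (x v) k (t v), ?_, ht2⟩
      intro l hl
      by_cases hlk : l = k
      · subst hlk
        simp only [update_self]
        exact ht1
      · simp only [update_of_ne hlk]
        exact hx1 l ((Finset.mem_insert.1 hl).resolve_left hlk)
  obtain ⟨x, hx1, hx2⟩ := main univ
  refine ⟨x, ?_, ?_⟩
  · intro i k h
    exact hne i (hx1 k (Finset.mem_univ _) h)
  · have h1 : wK a hd tl κ0 univ x = fun i k => |x (hd i) k - x (tl i) k| ^ (a - 1) *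
        (x (hd i) k - x (tl i) k) := by
      funext i k
      rw [wK, if_pos (Finset.mem_univ _), ph]
    rw [h1] at hx2
    exact hx2

end Elim

end Pool.Agent.Work.MP_3a76b1_co
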