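import Pool.Agent.Work.MP_3a76b1_co.O.TreeIndep
import Pool.Agent.Work.MP_3a76b1_co.Expand

/-!
Independent sets of edges of full size are trees; the colour classes of nonvanishing
coefficients.
-/

namespace Pool.Agent.Work.MP_3a76b1_co

open Finset Function

section Grow

variable {V I : Type*} [Fintype V] [DecidableEq V] [Fintype I] [DecidableEq I]

lemma exists_cross (hd tl : I → V) {T : Finset I}
    (hT : LinearIndepOn ℝ (inc hd tl) (T : Set I)) (hcard : T.card + 1 = Fintype.card V)
    {A : Finset V} (hA : A.Nonempty) (hA' : A ≠ univ) :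
    ∃ i ∈ T, (hd i ∈ A ∧ tl i ∉ A) ∨ (hd i ∉ A ∧ tl i ∈ A) := by
  by_contra hcon
  push Not at hcon
  obtain ⟨u, hu⟩ := hA
  obtain ⟨w, hw⟩ : ∃ w, w ∉ A := by
    by_contra h
    push Not at h
    exact hA' (Finset.eq_univ_iff_forall.2 h)
  let g : T ⊕ Bool → (V → ℝ) := fun j => match j with
    | Sum.inl i => inc hd tl i
    | Sum.inr true => Pi.single u 1
    | Sum.inr false => Pi.single w 1
  have hg : LinearIndependent ℝ g := by
    rw [Fintype.linearIndependent_iff]
    intro b hb
    rw [Fintype.sum_sum_type, Fintype.sum_bool] at hb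
    simp only [g] at hb
    have hincA : ∀ i : T, ∑ v ∈ A, inc hd tl i v = 0 := by
      intro i
      have h1 := hcon i i.2
      simp only [inc, Pi.sub_apply, Finset.sum_sub_distrib, Finset.sum_pi_single']
      by_cases h2 : hd i ∈ A
      · rw [if_pos h2, if_pos (h1.1 h2), sub_self]
      · rw [if_neg h2, if_neg (h1.2 h2), sub_self]
    have hinc : ∀ i : T, ∑ v, inc hd tl i v = 0 := by
      intro i
      simp [inc]
    have e1 : b (Sum.inr true) = 0 := by
      have h1 : ∑ v ∈ A, (∑ i : T, b (Sum.inl i) • inc hd tl i +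
          (b (Sum.inr true) • (Pi.single u 1 : V → ℝ) +
          b (Sum.inr false) • (Pi.single w 1 : V → ℝ))) v = 0 := by
        rw [hb]
        simp
      simp only [Pi.add_apply, Finset.sum_apply, Pi.smul_apply, smul_eq_mul,
        Finset.sum_add_distrib] at h1
      rw [Finset.sum_comm] at h1
      simp_rw [← Finset.mul_sum, hincA, mul_zero, Finset.sum_const_zero, zero_add,
        Finset.sum_pi_single'] at h1
      rw [if_pos hu, if_neg hw] at h1
      linarith
    have e2 : b (Sum.inr false) = 0 := by
      have h1 : ∑ v, (∑ i : T, b (Sum.inl i) • inc hd tl i +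
          (b (Sum.inr true) • (Pi.single u 1 : V → ℝ) +
          b (Sum.inr false) • (Pi.single w 1 : V → ℝ))) v = 0 := by
        rw [hb]
        simp
      simp only [Pi.add_apply, Finset.sum_apply, Pi.smul_apply, smul_eq_mul,
        Finset.sum_add_distrib] at h1
      rw [Finset.sum_comm] at h1
      simp_rw [← Finset.mul_sum, hinc, mul_zero, Finset.sum_const_zero, zero_add,
        Finset.sum_pi_single'] at h1
      rw [e1] at h1
      simp at h1
      exact h1
    rw [e1, e2, zero_smul, zero_smul, add_zero, add_zero] at hb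
    have h3 : LinearIndependent ℝ (fun i : T => inc hd tl i) := hT
    have h4 := (Fintype.linearIndependent_iff.1 h3) (fun i => b (Sum.inl i)) hb
    rintro (i | (_ | _))
    · exact h4 i
    · exact e2
    · exact e1
  have h5 := hg.fintype_card_le_finrank
  rw [Module.finrank_pi, Fintype.card_sum, Fintype.card_coe, Fintype.card_bool] at h5
  omega

lemma zz_edge (hd tl : I → V) (hne : ∀ i, hd i ≠ tl i)
    (hinj : Injective (fun i => s(hd i, tl i))) (i : I) :
    zz hd tl (hd i) (tl i) = MvPolynomial.X i := by
  rw [zz, Finset.sum_eq_single i]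
  · rw [ep, if_pos ⟨rfl, rfl⟩, if_neg, sub_zero, one_smul]
    rintro ⟨h1, _⟩
    exact hne i h1
  · intro j _ hj
    have h1 : ¬ (hd j = hd i ∧ tl j = tl i) := by
      rintro ⟨h2, h3⟩
      exact hj (hinj (by simp only [h2, h3]))
    have h2 : ¬ (hd j = tl i ∧ tl j = hd i) := by
      rintro ⟨h2, h3⟩
      refine hj (hinj ?_)
      simp only [h2, h3]
      exact Sym2.eq_swap
    rw [ep, if_neg h1, if_neg h2, sub_zero, zero_smul]
  · intro h
    exact absurd (Finset.mem_univ _) h

lemma TF_extend {A : Finset V} {r u v : V} {f : V → V} (h : TF A r f) (hu : u ∈ A)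
    (hv : v ∉ A) : TF (insert v A) r (update f v u) := by
  obtain ⟨h1, h2, h3, h4⟩ := h
  have hrv : r ≠ v := fun h0 => hv (h0 ▸ h1)
  have hreach : ∀ w ∈ A, ∃ k, (update f v u)^[k] w = r := by
    intro w hw
    obtain ⟨k, hk⟩ := h4 w hw
    refine reach_transfer (f := f) (fun x => x ∈ A) ?_ k w hw hk
    intro x hx _
    have : x ≠ v := fun h0 => hv (h0 ▸ hx)
    exact ⟨update_of_ne this _ _, h3 x hx⟩
  refine ⟨Finset.mem_insert_of_mem h1, by rw [update_of_ne hrv, h2], ?_, ?_⟩
  · intro w hw
    by_cases hwv : w = v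
    · subst hwv
      rw [update_self]
      exact Finset.mem_insert_of_mem hu
    · rw [update_of_ne hwv]
      exact Finset.mem_insert_of_mem (h3 w ((Finset.mem_insert.1 hw).resolve_left hwv))
  · intro w hw
    by_cases hwv : w = v
    · subst hwv
      obtain ⟨k, hk⟩ := hreach u hu
      exact ⟨k + 1, by rw [iterate_succ_apply, update_self, hk]⟩
    · exact hreach w ((Finset.mem_insert.1 hw).resolve_left hwv)

lemma mon_extend {R : Type*} [CommRing R] (z : V → V → R) {A : Finset V} {r u v : V} {f : V → V}
    (hr : r ∈ A) (hv : v ∉ A) :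
    mon z (insert v A) r (update f v u) = z v u * mon z A r f := by
  have hrv : r ≠ v := fun h0 => hv (h0 ▸ hr)
  rw [mon, Finset.erase_insert_of_ne hrv.symm, Finset.prod_insert, update_self, mon]
  · congr 1
    refine Finset.prod_congr rfl (fun w hw => ?_)
    rw [update_of_ne]
    rintro rfl
    exact hv (Finset.mem_of_mem_erase hw)
  · intro h
    exact hv (Finset.mem_of_mem_erase h)

lemma exists_tree (hd tl : I → V) (hne : ∀ i, hd i ≠ tl i)
    (hinj : Injective (fun i => s(hd i, tl i))) {T : Finset I}
    (hT : LinearIndepOn ℝ (inc hd tl) (T : Set I)) (hcard : T.card + 1 = Fintype.card V)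
    (r : V) : ∃ f : V → V, TF univ r f ∧
      (mon (zz hd tl) univ r f = ∏ i ∈ T, (MvPolynomial.X i : MvPolynomial I ℝ) ∨
        mon (zz hd tl) univ r f = - ∏ i ∈ T, (MvPolynomial.X i : MvPolynomial I ℝ)) := by
  have main : ∀ k, k ≤ T.card → ∃ (A : Finset V) (S : Finset I) (f : V → V),
      A.card = k + 1 ∧ S ⊆ T ∧ S.card = k ∧ TF A r f ∧ (∀ i ∈ S, hd i ∈ A ∧ tl i ∈ A) ∧
      (mon (zz hd tl) A r f = ∏ i ∈ S, (MvPolynomial.X i : MvPolynomial I ℝ) ∨
        mon (zz hd tl) A r f = - ∏ i ∈ S, (MvPolynomial.X i : MvPolynomial I ℝ)) := by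
    intro k
    induction k with
    | zero =>
      intro _
      refine ⟨{r}, ∅, id, by simp, by simp, by simp, ⟨by simp, rfl, by simp, ?_⟩, by simp,
        Or.inl ?_⟩
      · intro v hv
        rw [Finset.mem_singleton] at hv
        exact ⟨0, hv⟩
      · simp [mon]
    | succ k ih =>
      intro hk
      obtain ⟨A, S, f, h1, h2, h3, h4, h5, h6⟩ := ih (by omega)
      obtain ⟨i, hiT, hi⟩ := exists_cross hd tl hT hcard (A := A) ⟨r, h4.1⟩ (by
        rintro rfl
        rw [Finset.card_univ] at h1
        omega)
      have hiS : i ∉ S := by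
        intro h0
        rcases hi with h7 | h7
        · exact h7.2 (h5 i h0).2
        · exact h7.1 (h5 i h0).1
      have hSc : (insert i S).card = k + 1 := by
        rw [Finset.card_insert_of_notMem hiS, h3]
      have hST : insert i S ⊆ T := Finset.insert_subset hiT h2
      rcases hi with ⟨h7, h8⟩ | ⟨h7, h8⟩
      · refine ⟨insert (tl i) A, insert i S, update f (tl i) (hd i), ?_, hST, hSc,
          TF_extend h4 h7 h8, ?_, ?_⟩
        · rw [Finset.card_insert_of_notMem h8, h1]
        · intro j hj
          rcases Finset.mem_insert.1 hj with rfl | hj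
          · exact ⟨Finset.mem_insert_of_mem h7, Finset.mem_insert_self _ _⟩
          · exact ⟨Finset.mem_insert_of_mem (h5 j hj).1, Finset.mem_insert_of_mem (h5 j hj).2⟩
        · rw [mon_extend (zz hd tl) h4.1 h8, zz_neg, zz_edge hd tl hne hinj,
            Finset.prod_insert hiS]
          rcases h6 with h6 | h6
          · rw [h6]
            right
            ring
          · rw [h6]
            left
            ring
      · refine ⟨insert (hd i) A, insert i S, update f (hd i) (tl i), ?_, hST, hSc,
          TF_extend h4 h8 h7, ?_, ?_⟩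
        · rw [Finset.card_insert_of_notMem h7, h1]
        · intro j hj
          rcases Finset.mem_insert.1 hj with rfl | hj
          · exact ⟨Finset.mem_insert_self _ _, Finset.mem_insert_of_mem h8⟩
          · exact ⟨Finset.mem_insert_of_mem (h5 j hj).1, Finset.mem_insert_of_mem (h5 j hj).2⟩
        · rw [mon_extend (zz hd tl) h4.1 h7, zz_edge hd tl hne hinj,
            Finset.prod_insert hiS]
          rcases h6 with h6 | h6
          · rw [h6]
            left
            ring
          · rw [h6]
            right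
            ring
  obtain ⟨A, S, f, h1, h2, h3, h4, h5, h6⟩ := main T.card le_rfl
  have hA : A = univ := by
    apply Finset.eq_univ_of_card
    omega
  have hS : S = T := Finset.eq_of_subset_of_card_le h2 (by omega)
  subst hA hS
  exact ⟨f, h4, h6⟩

/-- products of signed even powers over spanning trees are linearly independent. -/
theorem tree_indep {a : ℕ} (ha : Even a) (ha2 : 2 ≤ a) (hd tl : I → V)
    (hne : ∀ i, hd i ≠ tl i) (hinj : Injective (fun i => s(hd i, tl i))) (c : Finset I → ℝ)
    (hc : ∀ T, c T ≠ 0 → T.card + 1 = Fintype.card V)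
    (h0 : ∀ x : V → ℝ, Injective x → ∑ T : Finset I, c T *
      ∏ i ∈ T, (|x (hd i) - x (tl i)| ^ (a - 1) * (x (hd i) - x (tl i))) = 0)
    {T : Finset I} (hT : LinearIndepOn ℝ (inc hd tl) (T : Set I)) : c T = 0 := by
  by_contra hne0
  have hcard := hc T hne0
  have hpos : 0 < Fintype.card V := by omega
  obtain ⟨r⟩ := Fintype.card_pos_iff.1 hpos
  obtain ⟨f, hf, hm⟩ := exists_tree hd tl hne hinj hT hcard r
  have h1 := Lc_mon ha ha2 hd tl hne hinj c hc h0 hf
  have h2 : Lc c (∏ i ∈ T, (MvPolynomial.X i : MvPolynomial I ℝ)) = c T := by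
    have h3 := prod_smul_X T (fun _ : I => (1 : ℝ))
    simp only [one_smul, Finset.prod_const_one] at h3
    rw [h3, Lc_apply, Finset.sum_eq_single T]
    · rw [MvPolynomial.coeff_monomial, if_pos rfl, mul_one]
    · intro S _ hS
      rw [MvPolynomial.coeff_monomial, if_neg (fun h => hS (ind_inj h).symm), mul_zero]
    · intro h
      exact absurd (Finset.mem_univ _) h
  apply hne0
  rcases hm with hm | hm
  · rw [hm, h2] at h1
    exact h1
  · rw [hm, map_neg, h2, neg_eq_zero] at h1
    exact h1

end Grow

section Classes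

variable {V : Type*} [Fintype V] [DecidableEq V] {r : V} {d : ℕ}

lemma card_nr (r : V) : Fintype.card {v : V // v ≠ r} + 1 = Fintype.card V := by
  have h3 : Fintype.card {v : V // v ≠ r} = Fintype.card V - 1 := by
    rw [Fintype.card_subtype_compl]
    simp
  have : 0 < Fintype.card V := Fintype.card_pos_iff.2 ⟨r⟩
  omega

lemma class_le (hd tl : Wd r d → V) (κ : Wd r d → Fin d) (h : coef hd tl κ ≠ 0) (k : Fin d) :
    (univ.filter (fun i => κ i = k)).card + 1 ≤ Fintype.card V := by
  rw [← card_nr r]
  refine Nat.add_le_add_right ?_ 1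
  let T := univ.filter (fun i => κ i = k)
  have hli : LinearIndependent ℝ (fun i : T => (fun v : {v : V // v ≠ r} => inc hd tl i v)) := by
    rw [Fintype.linearIndependent_iff]
    intro b hb i
    let a : Wd r d → ℝ := fun j => if hj : j ∈ T then b ⟨j, hj⟩ else 0
    have ha : Matrix.vecMul a (Mat hd tl (fun i => Pi.single (κ i) 1)) = 0 := by
      ext ⟨v, l⟩
      simp only [Matrix.vecMul, dotProduct, Mat, Matrix.of_apply, Pi.zero_apply]
      by_cases hl : l = k
      · have h1 := congrFun hb v
        rw [Finset.sum_apply] at h1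
        simp only [Pi.smul_apply, smul_eq_mul, Pi.zero_apply] at h1
        rw [← h1, ← Finset.sum_subset (Finset.subset_univ T)]
        · rw [← Finset.sum_coe_sort T]
          refine Finset.sum_congr rfl (fun j _ => ?_)
          simp only [a]
          have h2 : κ j = k := (Finset.mem_filter.1 j.2).2
          rw [dif_pos j.2, h2, hl, Pi.single_eq_same, one_mul]
        · intro j _ hj
          simp only [a]
          rw [dif_neg hj, zero_mul]
      · refine Finset.sum_eq_zero (fun j _ => ?_)
        simp only [a]
        split_ifs with hj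
        · have h2 : κ j = k := (Finset.mem_filter.1 hj).2
          rw [h2, Pi.single_apply, if_neg hl]
          ring
        · ring
    have h2 := Matrix.eq_zero_of_vecMul_eq_zero h ha
    have h3 := congrFun h2 i
    simp only [a, Pi.zero_apply] at h3
    rw [dif_pos i.2] at h3
    exact h3
  have := hli.fintype_card_le_finrank
  rw [Module.finrank_pi, Fintype.card_coe] at this
  exact this

end Classes

end Pool.Agent.Work.MP_3a76b1_co
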