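import Pool.Agent.Work.MP_3a76b1_co.O.Null

/-!
Null families of linear forms vanish on all trees.
-/

namespace Pool.Agent.Work.MP_3a76b1_co

open Finset Function

section LOne

variable {V : Type*} [DecidableEq V] {R : Type*} [CommRing R]

lemma erase_split {A C : Finset V} {r v : V} (hC : C ⊆ A) (hv : v ∈ C) (hr : r ∈ A)
    (hrC : r ∉ C) : A.erase r = insert v (C.erase v ∪ (A \ C).erase r) := by
  ext u
  simp only [Finset.mem_erase, Finset.mem_insert, Finset.mem_union, Finset.mem_sdiff]
  constructor
  · rintro ⟨h1, h2⟩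
    by_cases h3 : u = v
    · exact Or.inl h3
    · right
      by_cases h4 : u ∈ C
      · exact Or.inl ⟨h3, h4⟩
      · exact Or.inr ⟨h1, h2, h4⟩
  · rintro (h1 | ⟨_, h2⟩ | ⟨h1, h2, _⟩)
    · subst h1
      exact ⟨fun h => hrC (h ▸ hv), hC hv⟩
    · exact ⟨fun h => hrC (h ▸ h2), hC h2⟩
    · exact ⟨h1, h2⟩

lemma erase_split' {A C : Finset V} {r v : V} (hC : C ⊆ A) (hv : v ∈ C) (hr : r ∈ A)
    (hrC : r ∉ C) : A.erase v = insert r (C.erase v ∪ (A \ C).erase r) := by
  ext u
  simp only [Finset.mem_erase, Finset.mem_insert, Finset.mem_union, Finset.mem_sdiff]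
  constructor
  · rintro ⟨h1, h2⟩
    by_cases h3 : u = r
    · exact Or.inl h3
    · right
      by_cases h4 : u ∈ C
      · exact Or.inl ⟨h1, h4⟩
      · exact Or.inr ⟨h3, h2, h4⟩
  · rintro (h1 | ⟨h1, h2⟩ | ⟨_, h2, h3⟩)
    · subst h1
      exact ⟨fun h => hrC (h ▸ hv), hr⟩
    · exact ⟨h1, hC h2⟩
    · exact ⟨fun h => h3 (h ▸ hv), h2⟩

lemma prod_split {A C : Finset V} {r v s : V} (hs : s ∉ C.erase v ∪ (A \ C).erase r)
    (φ : V → R) : ∏ u ∈ insert s (C.erase v ∪ (A \ C).erase r), φ u =
      φ s * ((∏ u ∈ C.erase v, φ u) * ∏ u ∈ (A \ C).erase r, φ u) := by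
  rw [Finset.prod_insert hs, Finset.prod_union]
  rw [Finset.disjoint_left]
  intro u hu hu'
  rw [Finset.mem_erase] at hu
  rw [Finset.mem_erase, Finset.mem_sdiff] at hu'
  exact hu'.2.2 hu.2

lemma mon_congr (z : V → V → R) {A : Finset V} {r : V} {f g : V → V}
    (h : ∀ u ∈ A, u ≠ r → f u = g u) : mon z A r f = mon z A r g := by
  rw [mon, mon]
  refine Finset.prod_congr rfl (fun u hu => ?_)
  rw [Finset.mem_erase] at hu
  rw [h u hu.2 hu.1]

lemma mon_move (z : V → V → R) {A C : Finset V} {r v w : V} {f : V → V} (hC : C ⊆ A)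
    (hv : v ∈ C) (hr : r ∈ A) (hrC : r ∉ C) :
    mon z A r (update f v w) = z v w * (mon z C v f * mon z (A \ C) r f) := by
  rw [mon, erase_split hC hv hr hrC, prod_split, update_self]
  · rw [mon, mon]
    congr 2
    · refine Finset.prod_congr rfl (fun u hu => ?_)
      rw [update_of_ne (Finset.ne_of_mem_erase hu)]
    · refine Finset.prod_congr rfl (fun u hu => ?_)
      rw [Finset.mem_erase, Finset.mem_sdiff] at hu
      rw [update_of_ne]
      rintro rfl
      exact hu.2.2 hv
  · simp only [Finset.mem_union, Finset.mem_erase, Finset.mem_sdiff, not_or]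
    exact ⟨fun h => h.1 rfl, fun h => h.2.2 hv⟩

lemma mon_flip (z : V → V → R) {A C : Finset V} {r v w : V} {f : V → V} (hC : C ⊆ A)
    (hv : v ∈ C) (hr : r ∈ A) (hrC : r ∉ C) :
    mon z A v (update (update f v v) r w) = z r w * (mon z C v f * mon z (A \ C) r f) := by
  rw [mon, erase_split' hC hv hr hrC, prod_split, update_self]
  · rw [mon, mon]
    congr 2
    · refine Finset.prod_congr rfl (fun u hu => ?_)
      rw [Finset.mem_erase] at hu
      rw [update_of_ne, update_of_ne hu.1]
      rintro rfl
      exact hrC hu.2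
    · refine Finset.prod_congr rfl (fun u hu => ?_)
      rw [Finset.mem_erase, Finset.mem_sdiff] at hu
      rw [update_of_ne hu.1, update_of_ne]
      rintro rfl
      exact hu.2.2 hv
  · simp only [Finset.mem_union, Finset.mem_erase, Finset.mem_sdiff, not_or]
    exact ⟨fun h => hrC h.2, fun h => h.1 rfl⟩

variable [Algebra ℝ R]

/-- both relations at the edge from a child v to the root r. -/
lemma child_rel {a : ℕ} (ha : 2 ≤ a) (z : V → V → R) (hz : ∀ u v, z u v = - z v u)
    {A : Finset V} (ih : ∀ B : Finset V, B.card < A.card → Indep a z B)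
    {Λ : V → R →ₗ[ℝ] ℝ} (hn : Null a z A Λ) {r v : V} {f : V → V} (h : TF A r f)
    (hv : v ∈ A) (hvr : v ≠ r) (hfv : f v = r) :
    (((a : ℝ) - 1) * ∑ w ∈ sub A f v, Λ w (mon z A r f) =
      ∑ w ∈ sub A f v, Λ v (mon z A v (update (update f v v) r w)) +
      ∑ w ∈ A \ sub A f v, Λ r (mon z A r (update f v w))) ∧
    ∑ w ∈ A, Λ w (mon z A r f) = 0 := by
  set C := sub A f v with hCdef
  have hCA : C ⊆ A := sub_subset _ _ _
  have hvC : v ∈ C := self_mem_sub hv
  have hrC : r ∉ C := root_not_mem_sub h.2.1 hvr
  have hrA : r ∈ A := h.1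
  have hdis : Disjoint C (A \ C) := Finset.disjoint_sdiff
  have hun : C ∪ (A \ C) = A := Finset.union_sdiff_of_subset hCA
  have cC : C.card < A.card := Finset.card_lt_card (Finset.ssubset_iff_subset_ne.2
    ⟨hCA, fun h0 => hrC (h0 ▸ hrA)⟩)
  have cD : (A \ C).card < A.card := Finset.card_lt_card (Finset.ssubset_iff_subset_ne.2
    ⟨Finset.sdiff_subset, fun h0 => by
      have : v ∈ A \ C := by rw [h0]; exact hv
      exact (Finset.mem_sdiff.1 this).2 hvC⟩)
  have t1 : TF C v (update f v v) := TF_sub h hv
  have t2 : TF (A \ C) r f := TF_sdiff h hvr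
  have hrD : r ∈ A \ C := Finset.mem_sdiff.2 ⟨hrA, hrC⟩
  have m1 : mon z C v (update f v v) = mon z C v f :=
    mon_congr z (fun u _ hu => update_of_ne hu _ _)
  set m : R := mon z C v f * mon z (A \ C) r f with hm
  have e1 := cut_rel ha z hdis (ih C cC) (ih _ cD) (Λ := Λ) (by rw [hun]; exact hn) t1 t2 hvC hrD
  have e2 := cut_rel ha z hdis.symm (ih _ cD) (ih C cC) (Λ := Λ)
    (by rw [Finset.union_comm, hun]; exact hn) t2 t1 hrD hvC
  rw [m1, LL_apply, ← hm] at e1
  rw [m1, LL_apply, mul_comm (mon z (A \ C) r f), ← hm] at e2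
  have mf : mon z A r f = z v r * m := by
    have := mon_move z (w := r) (f := f) hCA hvC hrA hrC
    rw [← hfv, update_eq_self, hfv] at this
    exact this
  have mm : ∀ w, mon z A r (update f v w) = z v w * m := fun w =>
    mon_move z hCA hvC hrA hrC
  have mfl : ∀ w, mon z A v (update (update f v v) r w) = z r w * m := fun w =>
    mon_flip z hCA hvC hrA hrC
  have sgn : ∀ (w u u' : V), Λ w (z u u' * m) = - Λ w (z u' u * m) := by
    intro w u u'
    rw [hz u u', neg_mul, map_neg]
  simp_rw [mm, mfl, mf]
  have s1 : ∑ u' ∈ C, Λ v (z u' r * m) = - ∑ u' ∈ C, Λ v (z r u' * m) := by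
    rw [← Finset.sum_neg_distrib]
    exact Finset.sum_congr rfl (fun u' _ => sgn v u' r)
  have s2 : ∑ w ∈ A \ C, Λ w (z r v * m) = - ∑ w ∈ A \ C, Λ w (z v r * m) := by
    rw [← Finset.sum_neg_distrib]
    exact Finset.sum_congr rfl (fun w _ => sgn w r v)
  have s3 : ∑ u' ∈ A \ C, Λ r (z u' v * m) = - ∑ u' ∈ A \ C, Λ r (z v u' * m) := by
    rw [← Finset.sum_neg_distrib]
    exact Finset.sum_congr rfl (fun u' _ => sgn r u' v)
  rw [s1] at e1
  rw [s2, s3] at e2
  refine ⟨by linarith, ?_⟩
  have tot : ∑ w ∈ A, Λ w (z v r * m) = ∑ w ∈ C, Λ w (z v r * m) +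
      ∑ w ∈ A \ C, Λ w (z v r * m) := by
    rw [← Finset.sum_union hdis, hun]
  rw [tot]
  have haR : (2 : ℝ) ≤ a := by exact_mod_cast ha
  have e3 : ((a : ℝ) - 1) * (∑ w ∈ C, Λ w (z v r * m) + ∑ w ∈ A \ C, Λ w (z v r * m)) = 0 := by
    linarith
  rcases mul_eq_zero.1 e3 with h0 | h0
  · linarith
  · exact h0

lemma reach_le {f g : V → V} {s : V} (P : V → Prop)
    (hP : ∀ u, P u → u ≠ s → (g u = f u ∧ P (f u))) :
    ∀ k u, P u → f^[k] u = s → ∃ j ≤ k, g^[j] u = s := by
  intro k
  induction k with
  | zero => intro u _ hk; exact ⟨0, le_rfl, hk⟩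
  | succ k ih =>
    intro u hu hk
    by_cases hus : u = s
    · exact ⟨0, Nat.zero_le _, hus⟩
    · obtain ⟨h1, h2⟩ := hP u hu hus
      rw [iterate_succ_apply] at hk
      obtain ⟨j, hjk, hj⟩ := ih (f u) h2 hk
      exact ⟨j + 1, by omega, by rw [iterate_succ_apply, h1, hj]⟩

variable [Fintype V]

/-- null families vanish. -/
theorem indep_all {a : ℕ} (ha : 2 ≤ a) (z : V → V → R) (hz : ∀ u v, z u v = - z v u) :
    ∀ n, ∀ A : Finset V, A.card = n → Indep a z A := by
  classical
  intro n
  induction n using Nat.strong_induction_on with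
  | _ n IH =>
    intro A hA Λ hn
    have ih : ∀ B : Finset V, B.card < A.card → Indep a z B := fun B hB =>
      IH B.card (by omega) B rfl
    by_cases h1 : A.card ≤ 1
    · intro r f hf w hw
      have hA1 : A = {r} := by
        have := Finset.card_le_one.1 h1
        ext u
        rw [Finset.mem_singleton]
        exact ⟨fun hu => this u hu r hf.1, fun hu => hu ▸ hf.1⟩
      subst hA1
      have h2 := hn (Lam.leaf r) trivial rfl (fun _ => 1)
      rw [Finset.sum_singleton, one_mul, Lam.P] at h2
      rw [Finset.mem_singleton] at hw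
      rw [hw, mon, Finset.erase_singleton, Finset.prod_empty]
      exact h2
    · have h2 : 2 ≤ A.card := by omega
      let h : V → (V → V) → ℝ := fun r f => if TF A r f then Λ r (mon z A r f) else 0
      have hpos : ∀ r f, TF A r f → h r f = Λ r (mon z A r f) := fun r f hf => if_pos hf
      have hneg : ∀ r f, ¬ TF A r f → h r f = 0 := fun r f hf => if_neg hf
      have hrel : Rel a A h := by
        intro r hr f hfr
        by_cases hf : TF A r f
        · have key : ∀ v ∈ (A.erase r).filter (fun v => f v = r),
              (∑ w ∈ A, h v (update (update f v v) r w) + ∑ w ∈ A, h r (update f v w)) =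
              ((a : ℝ) - 1) * ∑ w ∈ sub A f v, Λ w (mon z A r f) := by
            intro v hv
            rw [Finset.mem_filter, Finset.mem_erase] at hv
            obtain ⟨⟨hvr, hvA⟩, hfv⟩ := hv
            rw [(child_rel ha z hz ih hn hf hvA hvr hfv).1]
            congr 1
            · symm
              have : ∑ w ∈ sub A f v, Λ v (mon z A v (update (update f v v) r w)) =
                  ∑ w ∈ sub A f v, h v (update (update f v v) r w) :=
                Finset.sum_congr rfl (fun w hw => (hpos _ _ (TF_flip hf hvA hvr hw)).symm)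
              rw [this]
              refine Finset.sum_subset (sub_subset _ _ _) (fun w hwA hw => ?_)
              exact hneg _ _ (not_TF_flip hf hvr hvA hw hwA)
            · symm
              have : ∑ w ∈ A \ sub A f v, Λ r (mon z A r (update f v w)) =
                  ∑ w ∈ A \ sub A f v, h r (update f v w) :=
                Finset.sum_congr rfl (fun w hw => (hpos _ _ (TF_move hf hvA hvr hw)).symm)
              rw [this]
              refine Finset.sum_subset Finset.sdiff_subset (fun w hwA hw => ?_)
              refine hneg _ _ (not_TF_move hf hvA hvr ?_)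
              by_contra h0
              exact hw (Finset.mem_sdiff.2 ⟨hwA, h0⟩)
          rw [Finset.sum_congr rfl key, ← Finset.mul_sum,
            sum_children hf (fun w => Λ w (mon z A r f)), hpos r f hf]
          obtain ⟨v, hvA, hvr, hfv⟩ := exists_child hf h2
          have h3 := (child_rel ha z hz ih hn hf hvA hvr hfv).2
          rw [← Finset.add_sum_erase _ _ hr] at h3
          rw [← mul_add, h3, mul_zero]
        · rw [hneg r f hf, mul_zero, zero_add]
          apply Finset.sum_eq_zero
          intro v hv
          rw [Finset.mem_filter, Finset.mem_erase] at hv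
          obtain ⟨⟨hvr, hvA⟩, hfv⟩ := hv
          rw [Finset.sum_eq_zero, Finset.sum_eq_zero, add_zero]
          · intro w _
            exact hneg _ _ (fun h0 => hf (TF_of_move hfr hvA hvr hfv h0))
          · intro w _
            exact hneg _ _ (fun h0 => hf (TF_of_flip hfr hr hvA hvr hfv h0))
      have hroot : ∀ r f, TF A r f → Λ r (mon z A r f) = 0 := by
        intro r f hf
        rw [← hpos r f hf]
        exact rel_zero ha hrel hf.1 hf.2.1
      -- re-rooting
      have main : ∀ k : ℕ, ∀ r f, TF A r f → ∀ w ∈ A, f^[k] w = r →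
          Λ w (mon z A r f) = 0 := by
        intro k
        induction k using Nat.strong_induction_on with
        | _ k IHk =>
          intro r f hf w hw hk
          cases k with
          | zero =>
            have : w = r := hk
            rw [this]
            exact hroot r f hf
          | succ k =>
            by_cases hkr : f^[k] w = r
            · exact IHk k (by omega) r f hf w hw hkr
            · set v := f^[k] w with hvdef
              have hfv : f v = r := by
                rw [hvdef, ← iterate_succ_apply' f k w]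
                exact hk
              have hvA : v ∈ A := iter_mem (fun u => u ∈ A) hf.2.2.1 k hw
              have hwC : w ∈ sub A f v := mem_sub.2 ⟨hw, k, rfl⟩
              have hvC : v ∈ sub A f v := self_mem_sub hvA
              have hrC : r ∉ sub A f v := root_not_mem_sub hf.2.1 hkr
              obtain ⟨j, hjk, hj⟩ := reach_le (f := f) (g := update (update f v v) r v)
                (s := v) (fun u => u ∈ sub A f v) (by
                  intro x hx hxv
                  have hxr : x ≠ r := by
                    rintro rfl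
                    exact hrC hx
                  exact ⟨by rw [update_of_ne hxr, update_of_ne hxv],
                    map_mem_sub hf.2.2.1 hx hxv⟩) k w hwC rfl
              have e := IHk j (by omega) v (update (update f v v) r v)
                (TF_flip hf hvA hkr hvC) w hw hj
              rw [mon_flip z (sub_subset A f v) hvC hf.1 hrC, hz r v, neg_mul, map_neg,
                neg_eq_zero] at e
              have e2 := mon_move z (w := r) (f := f) (sub_subset A f v) hvC hf.1 hrC
              rw [← hfv, update_eq_self, hfv] at e2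
              rw [e2]
              exact e
      intro r f hf w hw
      obtain ⟨k, hk⟩ := hf.2.2.2 w hw
      exact main k r f hf w hw hk

end LOne

end Pool.Agent.Work.MP_3a76b1_co
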