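import Mathlib

/-!
A summation rule over parent functions: a local linear relation between the values of a
function on rooted trees and their modifications at one vertex forces the function to vanish.
-/

namespace Pool.Agent.Work.MP_3a76b1_co

open Finset Function

section SumRule

variable {V : Type*} [Fintype V] [DecidableEq V]

/-- functions fixing r, equal to g off Z, and with values in A on Z. -/
def Fn (A Z : Finset V) (r : V) (g : V → V) : Finset (V → V) :=
  univ.filter (fun f => f r = r ∧ (∀ u, u ∉ Z → f u = g u) ∧ ∀ u ∈ Z, f u ∈ A)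

lemma mem_Fn {A Z : Finset V} {r : V} {g f : V → V} :
    f ∈ Fn A Z r g ↔ f r = r ∧ (∀ u, u ∉ Z → f u = g u) ∧ ∀ u ∈ Z, f u ∈ A := by
  simp [Fn]

lemma sum_move1 {A Z : Finset V} (hZA : Z ⊆ A) {r v : V} (hr : r ∈ Z) (hvr : v ≠ r)
    {g : V → V} (hv : v ∉ Z → g v = r) (h : (V → V) → ℝ) :
    ∑ f ∈ (Fn A Z r g).filter (fun f => f v = r), ∑ w ∈ A, h (update f v w) =
      ∑ f ∈ Fn A (insert v Z) r g, h f := by
  rw [← Finset.sum_product']
  refine Finset.sum_nbij' (fun p => update p.1 v p.2) (fun f => (update f v r, f v))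
    ?_ ?_ ?_ ?_ ?_
  · rintro ⟨f, w⟩ hp
    simp only [Finset.mem_product, Finset.mem_filter, mem_Fn] at hp
    obtain ⟨⟨⟨h1, h2, h3⟩, h4⟩, h5⟩ := hp
    rw [mem_Fn]
    refine ⟨?_, ?_, ?_⟩
    · simp only [update_of_ne hvr.symm, h1]
    · intro u hu
      rw [Finset.mem_insert, not_or] at hu
      simp only [update_of_ne hu.1]
      exact h2 u hu.2
    · intro u hu
      by_cases huv : u = v
      · subst huv
        simpa using h5
      · simp only [update_of_ne huv]
        exact h3 u ((Finset.mem_insert.1 hu).resolve_left huv)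
  · intro f hf
    rw [mem_Fn] at hf
    obtain ⟨h1, h2, h3⟩ := hf
    simp only [Finset.mem_product, Finset.mem_filter, mem_Fn]
    refine ⟨⟨⟨?_, ?_, ?_⟩, ?_⟩, ?_⟩
    · rw [update_of_ne hvr.symm, h1]
    · intro u hu
      by_cases huv : u = v
      · subst huv
        rw [update_self, hv hu]
      · rw [update_of_ne huv]
        exact h2 u (by rw [Finset.mem_insert, not_or]; exact ⟨huv, hu⟩)
    · intro u hu
      by_cases huv : u = v
      · subst huv
        rw [update_self]
        exact hZA hr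
      · rw [update_of_ne huv]
        exact h3 u (Finset.mem_insert_of_mem hu)
    · rw [update_self]
    · exact h3 v (Finset.mem_insert_self _ _)
  · rintro ⟨f, w⟩ hp
    simp only [Finset.mem_product, Finset.mem_filter, mem_Fn] at hp
    obtain ⟨⟨⟨h1, h2, h3⟩, h4⟩, h5⟩ := hp
    simp only [update_idem, update_self, Prod.mk.injEq, and_true]
    rw [← h4, update_eq_self]
  · intro f hf
    simp
  · rintro ⟨f, w⟩ hp
    rfl

lemma sum_move2 {A Z : Finset V} (hZA : Z ⊆ A) {r v : V} (hr : r ∈ Z) (hvA : v ∈ A)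
    (hvr : v ≠ r) {g : V → V} (hv : v ∉ Z → g v = r) (h : (V → V) → ℝ) :
    ∑ f ∈ (Fn A Z r g).filter (fun f => f v = r), ∑ w ∈ A, h (update (update f v v) r w) =
      ∑ f ∈ Fn A (insert v Z) v g, h f := by
  rw [← Finset.sum_product']
  refine Finset.sum_nbij' (fun p => update (update p.1 v v) r p.2)
    (fun f => (update (update f r r) v r, f r)) ?_ ?_ ?_ ?_ ?_
  · rintro ⟨f, w⟩ hp
    simp only [Finset.mem_product, Finset.mem_filter, mem_Fn] at hp
    obtain ⟨⟨⟨h1, h2, h3⟩, h4⟩, h5⟩ := hp
    rw [mem_Fn]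
    refine ⟨?_, ?_, ?_⟩
    · simp only [update_of_ne hvr, update_self]
    · intro u hu
      rw [Finset.mem_insert, not_or] at hu
      have hur : u ≠ r := fun h0 => hu.2 (h0 ▸ hr)
      simp only [update_of_ne hu.1, update_of_ne hur]
      exact h2 u hu.2
    · intro u hu
      by_cases hur : u = r
      · subst hur
        simpa using h5
      · simp only [update_of_ne hur]
        by_cases huv : u = v
        · subst huv
          simpa using hvA
        · simp only [update_of_ne huv]
          exact h3 u ((Finset.mem_insert.1 hu).resolve_left huv)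
  · intro f hf
    rw [mem_Fn] at hf
    obtain ⟨h1, h2, h3⟩ := hf
    simp only [Finset.mem_product, Finset.mem_filter, mem_Fn]
    refine ⟨⟨⟨?_, ?_, ?_⟩, ?_⟩, ?_⟩
    · rw [update_of_ne hvr.symm, update_self]
    · intro u hu
      have hur : u ≠ r := fun h0 => hu (h0 ▸ hr)
      by_cases huv : u = v
      · subst huv
        rw [update_self, hv hu]
      · rw [update_of_ne huv, update_of_ne hur]
        exact h2 u (by rw [Finset.mem_insert, not_or]; exact ⟨huv, hu⟩)
    · intro u hu
      by_cases huv : u = v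
      · subst huv
        rw [update_self]
        exact hZA hr
      · rw [update_of_ne huv]
        by_cases hur : u = r
        · subst hur
          rw [update_self]
          exact hZA hr
        · rw [update_of_ne hur]
          exact h3 u (Finset.mem_insert_of_mem hu)
    · rw [update_self]
    · exact h3 r (Finset.mem_insert_of_mem hr)
  · rintro ⟨f, w⟩ hp
    simp only [Finset.mem_product, Finset.mem_filter, mem_Fn] at hp
    obtain ⟨⟨⟨h1, h2, h3⟩, h4⟩, h5⟩ := hp
    simp only [update_self, update_idem, Prod.mk.injEq, and_true]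
    ext u
    by_cases huv : u = v
    · subst huv
      rw [update_self, h4]
    · rw [update_of_ne huv]
      by_cases hur : u = r
      · subst hur
        rw [update_self, h1]
      · rw [update_of_ne hur, update_of_ne huv]
  · intro f hf
    rw [mem_Fn] at hf
    obtain ⟨h1, h2, h3⟩ := hf
    simp only
    ext u
    by_cases hur : u = r
    · subst hur
      rw [update_self]
    · rw [update_of_ne hur]
      by_cases huv : u = v
      · subst huv
        rw [update_self, h1]
      · rw [update_of_ne huv, update_of_ne huv, update_of_ne hur]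
  · rintro ⟨f, w⟩ hp
    rfl

/-- the local relation at a rooted tree given by the parent function f with root r. -/
def Rel (a : ℕ) (A : Finset V) (h : V → (V → V) → ℝ) : Prop :=
  ∀ r ∈ A, ∀ f : V → V, f r = r →
    ((a : ℝ) - 1) * h r f + ∑ v ∈ (A.erase r).filter (fun v => f v = r),
      (∑ w ∈ A, h v (update (update f v v) r w) + ∑ w ∈ A, h r (update f v w)) = 0

lemma sum_rel {a : ℕ} {A : Finset V} {h : V → (V → V) → ℝ} (hrel : Rel a A h)
    {Z : Finset V} (hZA : Z ⊆ A) {r : V} (hr : r ∈ Z) (g : V → V) :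
    ((a : ℝ) - 1) * ∑ f ∈ Fn A Z r g, h r f +
      ∑ v ∈ (A.erase r).filter (fun v => v ∉ Z → g v = r),
        (∑ f ∈ Fn A (insert v Z) v g, h v f + ∑ f ∈ Fn A (insert v Z) r g, h r f) = 0 := by
  have h1 : ∑ f ∈ Fn A Z r g, (((a : ℝ) - 1) * h r f +
      ∑ v ∈ (A.erase r).filter (fun v => f v = r),
      (∑ w ∈ A, h v (update (update f v v) r w) + ∑ w ∈ A, h r (update f v w))) = 0 :=
    Finset.sum_eq_zero (fun f hf => hrel r (hZA hr) f (mem_Fn.1 hf).1)
  rw [Finset.sum_add_distrib, ← Finset.mul_sum] at h1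
  rw [← h1]
  congr 1
  symm
  simp_rw [Finset.sum_filter (s := A.erase r) (p := fun v => _ = r)]
  rw [Finset.sum_comm, Finset.sum_filter]
  refine Finset.sum_congr rfl (fun v hv => ?_)
  have hvr : v ≠ r := Finset.ne_of_mem_erase hv
  have hvA : v ∈ A := Finset.mem_of_mem_erase hv
  rw [← Finset.sum_filter]
  split_ifs with hc
  · rw [Finset.sum_add_distrib, sum_move1 hZA hr hvr hc, sum_move2 hZA hr hvA hvr hc]
  · push Not at hc
    apply Finset.sum_eq_zero
    intro f hf
    exfalso
    rw [Finset.mem_filter, mem_Fn] at hf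
    exact hc.2 ((hf.1.2.1 v hc.1).symm.trans hf.2)

lemma fn_step {a : ℕ} (ha : 2 ≤ a) {A : Finset V} {h : V → (V → V) → ℝ} (hrel : Rel a A h)
    {Z : Finset V} (hZA : Z ⊆ A)
    (hup : ∀ v ∈ A, v ∉ Z → ∀ r ∈ insert v Z, ∀ g, ∑ f ∈ Fn A (insert v Z) r g, h r f = 0)
    {r : V} (hr : r ∈ Z) (g : V → V) : ∑ f ∈ Fn A Z r g, h r f = 0 := by
  set H : V → ℝ := fun v => ∑ f ∈ Fn A Z v g, h v f with hH
  have key : ∀ r ∈ Z, ((a : ℝ) - 1) * H r + ∑ v ∈ Z.erase r, (H v + H r) = 0 := by
    intro r hr
    rw [← sum_rel hrel hZA hr g]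
    congr 1
    have hsub : Z.erase r ⊆ (A.erase r).filter (fun v => v ∉ Z → g v = r) := by
      intro v hv
      rw [Finset.mem_filter, Finset.mem_erase]
      rw [Finset.mem_erase] at hv
      exact ⟨⟨hv.1, hZA hv.2⟩, fun h0 => absurd hv.2 h0⟩
    rw [← Finset.sum_subset hsub]
    · refine Finset.sum_congr rfl (fun v hv => ?_)
      rw [Finset.insert_eq_of_mem (Finset.mem_of_mem_erase hv)]
    · intro v hv hv'
      rw [Finset.mem_filter, Finset.mem_erase] at hv
      have hvZ : v ∉ Z := fun h0 => hv' (Finset.mem_erase.2 ⟨hv.1.1, h0⟩)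
      rw [hup v hv.1.2 hvZ v (Finset.mem_insert_self _ _) g,
        hup v hv.1.2 hvZ r (Finset.mem_insert_of_mem hr) g, add_zero]
  set S : ℝ := ∑ v ∈ Z, H v with hS
  have key2 : ∀ r ∈ Z, ((a : ℝ) + (Z.card : ℝ) - 3) * H r + S = 0 := by
    intro r hr
    have h1 := key r hr
    rw [Finset.sum_add_distrib, Finset.sum_const, nsmul_eq_mul,
      Finset.card_erase_of_mem hr] at h1
    have h2 : ∑ v ∈ Z.erase r, H v = S - H r := by
      rw [hS, ← Finset.add_sum_erase Z H hr]
      ring
    have h3 : ((Z.card - 1 : ℕ) : ℝ) = (Z.card : ℝ) - 1 := by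
      rw [Nat.cast_sub (Finset.card_pos.2 ⟨r, hr⟩), Nat.cast_one]
    rw [h2, h3] at h1
    linarith
  have haR : (2 : ℝ) ≤ a := by exact_mod_cast ha
  have hcard : 1 ≤ Z.card := Finset.card_pos.2 ⟨r, hr⟩
  have hcR : (1 : ℝ) ≤ Z.card := by exact_mod_cast hcard
  have hS0 : S = 0 := by
    have h1 : ∑ r ∈ Z, (((a : ℝ) + (Z.card : ℝ) - 3) * H r + S) = 0 :=
      Finset.sum_eq_zero key2
    rw [Finset.sum_add_distrib, ← Finset.mul_sum, Finset.sum_const, nsmul_eq_mul, ← hS] at h1
    have h2 : ((a : ℝ) + 2 * (Z.card : ℝ) - 3) * S = 0 := by linarith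
    rcases mul_eq_zero.1 h2 with h3 | h3
    · linarith
    · exact h3
  change H r = 0
  by_cases h1 : Z.card = 1
  · obtain ⟨v, hv⟩ := Finset.card_eq_one.1 h1
    have hrv : r = v := by
      rw [hv] at hr
      exact Finset.mem_singleton.1 hr
    rw [hS, hv, Finset.sum_singleton, ← hrv] at hS0
    exact hS0
  · have h2 := key2 r hr
    rw [hS0, add_zero] at h2
    have h3 : (2 : ℝ) ≤ Z.card := by
      have : 2 ≤ Z.card := by omega
      exact_mod_cast this
    rcases mul_eq_zero.1 h2 with h4 | h4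
    · linarith
    · exact h4

lemma fn_zero {a : ℕ} (ha : 2 ≤ a) {A : Finset V} {h : V → (V → V) → ℝ} (hrel : Rel a A h) :
    ∀ k : ℕ, ∀ Z ⊆ A, A.card ≤ Z.card + k → ∀ r ∈ Z, ∀ g, ∑ f ∈ Fn A Z r g, h r f = 0 := by
  intro k
  induction k with
  | zero =>
    intro Z hZA hk r hr g
    have hZ : Z = A := Finset.eq_of_subset_of_card_le hZA (by simpa using hk)
    refine fn_step ha hrel hZA ?_ hr g
    intro v hvA hvZ
    rw [hZ] at hvZ
    exact absurd hvA hvZ
  | succ k ih =>
    intro Z hZA hk r hr g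
    refine fn_step ha hrel hZA ?_ hr g
    intro v hvA hvZ
    refine ih (insert v Z) (Finset.insert_subset hvA hZA) ?_
    rw [Finset.card_insert_of_notMem hvZ]
    omega

/-- the relation forces the function to vanish. -/
theorem rel_zero {a : ℕ} (ha : 2 ≤ a) {A : Finset V} {h : V → (V → V) → ℝ} (hrel : Rel a A h)
    {r : V} (hr : r ∈ A) {f : V → V} (hf : f r = r) : h r f = 0 := by
  have h1 := fn_zero ha hrel A.card {r} (by simpa using hr) (by omega) r
    (Finset.mem_singleton_self r) f
  have h2 : Fn A {r} r f = {f} := by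
    ext f'
    rw [mem_Fn, Finset.mem_singleton]
    constructor
    · rintro ⟨h3, h4, h5⟩
      ext u
      by_cases hu : u = r
      · rw [hu, h3, hf]
      · exact h4 u (by rwa [Finset.mem_singleton])
    · rintro rfl
      refine ⟨hf, fun _ _ => rfl, ?_⟩
      intro u hu
      rw [Finset.mem_singleton] at hu
      rw [hu, hf]
      exact hr
  rw [h2, Finset.sum_singleton] at h1
  exact h1

end SumRule

end Pool.Agent.Work.MP_3a76b1_co
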