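import Pool.Agent.Work.MP_3a76b1_co.O.TreeFun
import Pool.Agent.Work.MP_3a76b1_co.O.SumRule

/-!
Null relations: a linear functional with values in linear forms that kills all products of
binary laminar families kills all tree monomials.
-/

namespace Pool.Agent.Work.MP_3a76b1_co

open Finset Function

/-- a mixed second derivative at the origin. -/
lemma mixed {ι : Type*} (I : Finset ι) (p q s c t : ι → ℝ) {a : ℕ} (ha : 2 ≤ a)
    (h : ∀ α β : ℝ, α ≠ 0 → β ≠ 0 →
      ∑ i ∈ I, (α * p i + 1 - β * q i) ^ a * (α * s i + c i + β * t i) = 0) :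
    ∑ i ∈ I, (-((a : ℝ) - 1) * (p i * q i * c i) + p i * t i - q i * s i) = 0 := by
  have hα : ∀ α β : ℝ, β ≠ 0 →
      ∑ i ∈ I, (α * p i + 1 - β * q i) ^ a * (α * s i + c i + β * t i) = 0 := by
    intro α β hβ
    have hcont : Continuous (fun α : ℝ =>
        ∑ i ∈ I, (α * p i + 1 - β * q i) ^ a * (α * s i + c i + β * t i)) := by fun_prop
    have h0 : Set.EqOn (fun α : ℝ =>
        ∑ i ∈ I, (α * p i + 1 - β * q i) ^ a * (α * s i + c i + β * t i)) (fun _ => 0)
        {0}ᶜ := fun α hα => h α β hα hβ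
    exact congrFun (Continuous.ext_on (dense_compl_singleton (0:ℝ)) hcont
      continuous_const h0) α
  have hβ : ∀ α β : ℝ,
      ∑ i ∈ I, (α * p i + 1 - β * q i) ^ a * (α * s i + c i + β * t i) = 0 := by
    intro α β
    have hcont : Continuous (fun β : ℝ =>
        ∑ i ∈ I, (α * p i + 1 - β * q i) ^ a * (α * s i + c i + β * t i)) := by fun_prop
    have h0 : Set.EqOn (fun β : ℝ =>
        ∑ i ∈ I, (α * p i + 1 - β * q i) ^ a * (α * s i + c i + β * t i)) (fun _ => 0)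
        {0}ᶜ := fun β hβ => hα α β hβ
    exact congrFun (Continuous.ext_on (dense_compl_singleton (0:ℝ)) hcont
      continuous_const h0) β
  have hB : ∀ β : ℝ, ∑ i ∈ I, ((a : ℝ) * (1 - β * q i) ^ (a - 1) * p i * (c i + β * t i) +
      (1 - β * q i) ^ a * s i) = 0 := by
    intro β
    have hd : HasDerivAt (fun α : ℝ =>
        ∑ i ∈ I, (α * p i + 1 - β * q i) ^ a * (α * s i + c i + β * t i))
        (∑ i ∈ I, ((a : ℝ) * (1 - β * q i) ^ (a - 1) * p i * (c i + β * t i) +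
          (1 - β * q i) ^ a * s i)) 0 := by
      apply HasDerivAt.fun_sum
      intro i _
      have h1 : HasDerivAt (fun α : ℝ => α * p i + 1 - β * q i) (p i) 0 := by
        simpa using (((hasDerivAt_id (0:ℝ)).mul_const (p i)).add_const 1).sub_const (β * q i)
      have h2 := h1.fun_pow a
      have h3 : HasDerivAt (fun α : ℝ => α * s i + c i + β * t i) (s i) 0 := by
        simpa using (((hasDerivAt_id (0:ℝ)).mul_const (s i)).add_const (c i)).add_const (β * t i)
      have h4 := h2.mul h3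
      simp only [zero_mul, zero_add] at h4
      exact h4
    have h0 : (fun α : ℝ => ∑ i ∈ I, (α * p i + 1 - β * q i) ^ a *
        (α * s i + c i + β * t i)) = fun _ => 0 := by
      funext α
      exact hβ α β
    rw [h0] at hd
    exact hd.unique (hasDerivAt_const _ _)
  have hd : HasDerivAt (fun β : ℝ =>
      ∑ i ∈ I, ((a : ℝ) * (1 - β * q i) ^ (a - 1) * p i * (c i + β * t i) +
      (1 - β * q i) ^ a * s i))
      (∑ i ∈ I, ((a : ℝ) * (((a - 1 : ℕ) : ℝ) * (-q i)) * p i * c i + (a : ℝ) * p i * t i +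
        (a : ℝ) * (-q i) * s i)) 0 := by
    apply HasDerivAt.fun_sum
    intro i _
    have h1 : HasDerivAt (fun β : ℝ => 1 - β * q i) (-q i) 0 := by
      simpa using ((hasDerivAt_id (0:ℝ)).mul_const (q i)).const_sub 1
    have h2 := (((h1.fun_pow (a - 1)).const_mul (a : ℝ)).mul_const (p i))
    have h3 : HasDerivAt (fun β : ℝ => c i + β * t i) (t i) 0 := by
      simpa using ((hasDerivAt_id (0:ℝ)).mul_const (t i)).const_add (c i)
    have h4 := (h2.mul h3).add ((h1.fun_pow a).mul_const (s i))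
    simp only [zero_mul, sub_zero, one_pow, add_zero, mul_one] at h4
    exact h4
  have h0 : (fun β : ℝ => ∑ i ∈ I, ((a : ℝ) * (1 - β * q i) ^ (a - 1) * p i *
      (c i + β * t i) + (1 - β * q i) ^ a * s i)) = fun _ => 0 := by
    funext β
    exact hB β
  rw [h0] at hd
  have h5 := hd.unique (hasDerivAt_const _ _)
  have haR : (a : ℝ) ≠ 0 := by
    have : (2:ℝ) ≤ a := by exact_mod_cast ha
    linarith
  have hsub : (((a - 1 : ℕ)) : ℝ) = (a : ℝ) - 1 := by
    rw [Nat.cast_sub (by omega), Nat.cast_one]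
  have h6 : (a : ℝ) * ∑ i ∈ I, (-((a : ℝ) - 1) * (p i * q i * c i) + p i * t i - q i * s i) =
      0 := by
    rw [Finset.mul_sum, ← h5]
    refine Finset.sum_congr rfl (fun i _ => ?_)
    rw [hsub]
    ring
  exact (mul_eq_zero.1 h6).resolve_left haR

/-- binary trees with leaves labelled by V. -/
inductive Lam (V : Type*) : Type _
  | leaf : V → Lam V
  | node : Lam V → Lam V → Lam V

section Null

variable {V : Type*} [DecidableEq V] {R : Type*} [CommRing R] [Algebra ℝ R]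

/-- the set of leaves. -/
def Lam.leaves : Lam V → Finset V
  | Lam.leaf v => {v}
  | Lam.node l r => l.leaves ∪ r.leaves

/-- no label is used twice. -/
def Lam.Valid : Lam V → Prop
  | Lam.leaf _ => True
  | Lam.node l r => l.Valid ∧ r.Valid ∧ Disjoint l.leaves r.leaves

/-- the number of inner nodes. -/
def Lam.rk : Lam V → ℕ
  | Lam.leaf _ => 0
  | Lam.node l r => l.rk + r.rk + 1

/-- the sum over the edges crossing a cut. -/
noncomputable def cr (a : ℕ) (z : V → V → R) (x : V → ℝ) (C D : Finset V) : R :=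
  ∑ u ∈ C, ∑ v ∈ D, ((x u - x v) ^ a) • z u v

/-- the product of the cut sums of a laminar family. -/
noncomputable def Lam.P (a : ℕ) (z : V → V → R) (x : V → ℝ) : Lam V → R
  | Lam.leaf _ => 1
  | Lam.node l r => cr a z x l.leaves r.leaves * (l.P a z x * r.P a z x)

lemma cr_congr (a : ℕ) (z : V → V → R) {x y : V → ℝ} {C D : Finset V}
    (hC : ∀ v ∈ C, x v = y v) (hD : ∀ v ∈ D, x v = y v) : cr a z x C D = cr a z y C D := by
  rw [cr, cr]
  refine Finset.sum_congr rfl (fun u hu => Finset.sum_congr rfl (fun v hv => ?_))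
  rw [hC u hu, hD v hv]

lemma Lam.P_congr (a : ℕ) (z : V → V → R) {x y : V → ℝ} (F : Lam V)
    (h : ∀ v ∈ F.leaves, x v = y v) : F.P a z x = F.P a z y := by
  induction F with
  | leaf v => rfl
  | node l r ihl ihr =>
    have hl : ∀ v ∈ l.leaves, x v = y v := fun v hv =>
      h v (Finset.mem_union_left _ hv)
    have hr : ∀ v ∈ r.leaves, x v = y v := fun v hv =>
      h v (Finset.mem_union_right _ hv)
    rw [Lam.P, Lam.P, ihl hl, ihr hr, cr_congr a z hl hr]

lemma Lam.P_affine (a : ℕ) (z : V → V → R) {x y : V → ℝ} (α t : ℝ) (F : Lam V)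
    (h : ∀ v ∈ F.leaves, x v = α * y v + t) :
    F.P a z x = (α ^ (a * F.rk)) • F.P a z y := by
  induction F with
  | leaf v => simp [Lam.P, Lam.rk]
  | node l r ihl ihr =>
    have hl : ∀ v ∈ l.leaves, x v = α * y v + t := fun v hv =>
      h v (Finset.mem_union_left _ hv)
    have hr : ∀ v ∈ r.leaves, x v = α * y v + t := fun v hv =>
      h v (Finset.mem_union_right _ hv)
    rw [Lam.P, Lam.P, ihl hl, ihr hr, Lam.rk]
    have h1 : cr a z x l.leaves r.leaves = (α ^ a) • cr a z y l.leaves r.leaves := by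
      rw [cr, cr, Finset.smul_sum]
      refine Finset.sum_congr rfl (fun u hu => ?_)
      rw [Finset.smul_sum]
      refine Finset.sum_congr rfl (fun v hv => ?_)
      rw [hl u hu, hr v hv, smul_smul]
      congr 1
      rw [← mul_pow]
      congr 1
      ring
    rw [h1]
    simp only [smul_mul_assoc, mul_smul_comm, smul_smul]
    congr 1
    ring

/-- the null relations on A. -/
def Null (a : ℕ) (z : V → V → R) (A : Finset V) (Λ : V → R →ₗ[ℝ] ℝ) : Prop :=
  ∀ F : Lam V, F.Valid → F.leaves = A → ∀ x : V → ℝ, ∑ w ∈ A, x w * Λ w (F.P a z x) = 0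

/-- the monomial of a rooted tree. -/
def mon (z : V → V → R) (A : Finset V) (r : V) (f : V → V) : R :=
  ∏ u ∈ A.erase r, z u (f u)

/-- null families vanish on A. -/
def Indep (a : ℕ) (z : V → V → R) (A : Finset V) : Prop :=
  ∀ Λ : V → R →ₗ[ℝ] ℝ, Null a z A Λ → ∀ r f, TF A r f → ∀ w ∈ A, Λ w (mon z A r f) = 0

/-- the functional attached to a pair of vertices on the two sides of a cut. -/
noncomputable def LL (a : ℕ) (z : V → V → R) (C D : Finset V) (Λ : V → R →ₗ[ℝ] ℝ) (u v : V) :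
    R →ₗ[ℝ] ℝ :=
  (-((a : ℝ) - 1)) • ∑ w ∈ C, (Λ w) ∘ₗ (LinearMap.mulLeft ℝ (z u v)) +
    ∑ v' ∈ D, (Λ v) ∘ₗ (LinearMap.mulLeft ℝ (z u v')) -
    ∑ u' ∈ C, (Λ u) ∘ₗ (LinearMap.mulLeft ℝ (z u' v))

lemma LL_apply (a : ℕ) (z : V → V → R) (C D : Finset V) (Λ : V → R →ₗ[ℝ] ℝ) (u v : V) (p : R) :
    LL a z C D Λ u v p = (-((a : ℝ) - 1)) * ∑ w ∈ C, Λ w (z u v * p) +
      ∑ v' ∈ D, Λ v (z u v' * p) - ∑ u' ∈ C, Λ u (z u' v * p) := by
  simp [LL]

lemma bilin {a : ℕ} (ha : 2 ≤ a) (z : V → V → R) {C D : Finset V} (hCD : Disjoint C D)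
    {Λ : V → R →ₗ[ℝ] ℝ} (hn : Null a z (C ∪ D) Λ) {F1 F2 : Lam V} (h1 : F1.Valid)
    (h2 : F2.Valid) (hC : F1.leaves = C) (hD : F2.leaves = D) (y : V → ℝ) :
    ∑ u ∈ C, y u * ∑ v ∈ D, y v * LL a z C D Λ u v (F2.P a z y * F1.P a z y) = 0 := by
  set PP : R := F2.P a z y * F1.P a z y with hPP
  let B : V → V → V → ℝ := fun w u v => Λ w (z u v * PP)
  have hnC : ∀ v ∈ D, v ∉ C := fun v hv h0 => (Finset.disjoint_left.1 hCD) h0 hv
  have key : ∀ α β : ℝ, α ≠ 0 → β ≠ 0 →
      ∑ i ∈ C ×ˢ D, (α * y i.1 + 1 - β * y i.2) ^ a *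
        (α * (∑ w ∈ C, y w * B w i.1 i.2) + (∑ w ∈ C, B w i.1 i.2) +
          β * (∑ w ∈ D, y w * B w i.1 i.2)) = 0 := by
    intro α β hα hβ
    let x : V → ℝ := fun v => if v ∈ C then α * y v + 1 else β * y v
    have hxC : ∀ v ∈ C, x v = α * y v + 1 := fun v hv => if_pos hv
    have hxD : ∀ v ∈ D, x v = β * y v + 0 := fun v hv => by
      rw [add_zero]
      exact if_neg (hnC v hv)
    have e0 := hn (Lam.node F1 F2) ⟨h1, h2, by rw [hC, hD]; exact hCD⟩
      (by rw [Lam.leaves, hC, hD]) x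
    have hP1 := Lam.P_affine a z α 1 F1 (x := x) (y := y) (by rw [hC]; exact hxC)
    have hP2 := Lam.P_affine a z β 0 F2 (x := x) (y := y) (by rw [hD]; exact hxD)
    have e1 : ∀ w, Λ w ((Lam.node F1 F2).P a z x) = (α ^ (a * F1.rk) * β ^ (a * F2.rk)) *
        ∑ i ∈ C ×ˢ D, (α * y i.1 + 1 - β * y i.2) ^ a * B w i.1 i.2 := by
      intro w
      rw [Lam.P, hP1, hP2, hC, hD]
      have e2 : cr a z x C D * ((α ^ (a * F1.rk)) • F1.P a z y *
          (β ^ (a * F2.rk)) • F2.P a z y) =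
          (α ^ (a * F1.rk) * β ^ (a * F2.rk)) • (cr a z x C D * PP) := by
        rw [smul_mul_smul_comm, mul_smul_comm, hPP, mul_comm (F1.P a z y)]
      rw [e2, map_smul, smul_eq_mul]
      congr 1
      rw [cr, Finset.sum_product, Finset.sum_mul, map_sum]
      refine Finset.sum_congr rfl (fun u hu => ?_)
      rw [Finset.sum_mul, map_sum]
      refine Finset.sum_congr rfl (fun v hv => ?_)
      rw [smul_mul_assoc, map_smul, smul_eq_mul, hxC u hu, hxD v hv, add_zero]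
    simp_rw [e1] at e0
    have hne : α ^ (a * F1.rk) * β ^ (a * F2.rk) ≠ 0 :=
      mul_ne_zero (pow_ne_zero _ hα) (pow_ne_zero _ hβ)
    have e3 : (α ^ (a * F1.rk) * β ^ (a * F2.rk)) * ∑ w ∈ C ∪ D, x w *
        ∑ i ∈ C ×ˢ D, (α * y i.1 + 1 - β * y i.2) ^ a * B w i.1 i.2 = 0 := by
      rw [← e0, Finset.mul_sum]
      refine Finset.sum_congr rfl (fun w _ => ?_)
      ring
    have e4 := (mul_eq_zero.1 e3).resolve_left hne
    rw [← e4, Finset.sum_union hCD]
    have e5 : ∑ w ∈ C, x w * ∑ i ∈ C ×ˢ D, (α * y i.1 + 1 - β * y i.2) ^ a * B w i.1 i.2 =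
        ∑ i ∈ C ×ˢ D, (α * y i.1 + 1 - β * y i.2) ^ a *
          ∑ w ∈ C, (α * y w + 1) * B w i.1 i.2 := by
      simp_rw [Finset.mul_sum]
      rw [Finset.sum_comm]
      refine Finset.sum_congr rfl (fun i _ => Finset.sum_congr rfl (fun w hw => ?_))
      rw [hxC w hw]
      ring
    have e6 : ∑ w ∈ D, x w * ∑ i ∈ C ×ˢ D, (α * y i.1 + 1 - β * y i.2) ^ a * B w i.1 i.2 =
        ∑ i ∈ C ×ˢ D, (α * y i.1 + 1 - β * y i.2) ^ a *
          ∑ w ∈ D, (β * y w) * B w i.1 i.2 := by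
      simp_rw [Finset.mul_sum]
      rw [Finset.sum_comm]
      refine Finset.sum_congr rfl (fun i _ => Finset.sum_congr rfl (fun w hw => ?_))
      rw [hxD w hw]
      ring
    rw [e5, e6, ← Finset.sum_add_distrib]
    refine Finset.sum_congr rfl (fun i _ => ?_)
    rw [← mul_add]
    congr 1
    simp_rw [add_mul, one_mul, mul_assoc]
    rw [Finset.sum_add_distrib, ← Finset.mul_sum, ← Finset.mul_sum]
  have hm := mixed (C ×ˢ D) (fun i => y i.1) (fun i => y i.2)
    (fun i => ∑ w ∈ C, y w * B w i.1 i.2) (fun i => ∑ w ∈ C, B w i.1 i.2)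
    (fun i => ∑ w ∈ D, y w * B w i.1 i.2) ha key
  rw [Finset.sum_sub_distrib, Finset.sum_add_distrib] at hm
  have f1 : ∑ i ∈ C ×ˢ D, -((a : ℝ) - 1) * (y i.1 * y i.2 * ∑ w ∈ C, B w i.1 i.2) =
      ∑ u ∈ C, y u * ∑ v ∈ D, y v * (-((a : ℝ) - 1) * ∑ w ∈ C, Λ w (z u v * PP)) := by
    rw [Finset.sum_product]
    refine Finset.sum_congr rfl (fun u _ => ?_)
    rw [Finset.mul_sum]
    refine Finset.sum_congr rfl (fun v _ => ?_)
    ring
  have f2 : ∑ i ∈ C ×ˢ D, y i.1 * ∑ w ∈ D, y w * B w i.1 i.2 =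
      ∑ u ∈ C, y u * ∑ v ∈ D, y v * ∑ v' ∈ D, Λ v (z u v' * PP) := by
    rw [Finset.sum_product]
    refine Finset.sum_congr rfl (fun u _ => ?_)
    simp only
    rw [← Finset.mul_sum, Finset.sum_comm]
    congr 1
    refine Finset.sum_congr rfl (fun v _ => ?_)
    rw [Finset.mul_sum]
  have f3 : ∑ i ∈ C ×ˢ D, y i.2 * ∑ w ∈ C, y w * B w i.1 i.2 =
      ∑ u ∈ C, y u * ∑ v ∈ D, y v * ∑ u' ∈ C, Λ u (z u' v * PP) := by
    rw [Finset.sum_product]
    simp_rw [Finset.mul_sum]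
    rw [Finset.sum_comm]
    have : ∀ v ∈ D, ∑ u' ∈ C, ∑ u ∈ C, y v * (y u * B u u' v) =
        ∑ u ∈ C, ∑ u' ∈ C, y u * (y v * Λ u (z u' v * PP)) := by
      intro v _
      rw [Finset.sum_comm]
      refine Finset.sum_congr rfl (fun u _ => Finset.sum_congr rfl (fun u' _ => ?_))
      simp only [B]
      ring
    rw [Finset.sum_congr rfl this, Finset.sum_comm]
  rw [f1, f2, f3, ← Finset.sum_add_distrib, ← Finset.sum_sub_distrib] at hm
  rw [← hm]
  refine Finset.sum_congr rfl (fun u _ => ?_)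
  rw [← mul_add, ← mul_sub, ← Finset.sum_add_distrib, ← Finset.sum_sub_distrib]
  congr 1
  refine Finset.sum_congr rfl (fun v _ => ?_)
  rw [LL_apply]
  ring

/-- the relation at a cut. -/
theorem cut_rel {a : ℕ} (ha : 2 ≤ a) (z : V → V → R) {C D : Finset V} (hCD : Disjoint C D)
    (iC : Indep a z C) (iD : Indep a z D)
    {Λ : V → R →ₗ[ℝ] ℝ} (hn : Null a z (C ∪ D) Λ) {c d : V} {f g : V → V} (hf : TF C c f)
    (hg : TF D d g) {u v : V} (hu : u ∈ C) (hv : v ∈ D) :
    LL a z C D Λ u v (mon z C c f * mon z D d g) = 0 := by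
  have hnC : ∀ v ∈ D, v ∉ C := fun v hv h0 => (Finset.disjoint_left.1 hCD) h0 hv
  have step1 : ∀ F2 : Lam V, F2.Valid → F2.leaves = D → ∀ y : V → ℝ,
      ∑ v ∈ D, y v * LL a z C D Λ u v (F2.P a z y * mon z C c f) = 0 := by
    intro F2 h2 hD y
    let Λ' : V → R →ₗ[ℝ] ℝ := fun u => ∑ v ∈ D, y v •
      ((LL a z C D Λ u v) ∘ₗ (LinearMap.mulLeft ℝ (F2.P a z y)))
    have hΛ' : ∀ u p, Λ' u p = ∑ v ∈ D, y v * LL a z C D Λ u v (F2.P a z y * p) := by
      intro u p
      simp [Λ']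
    have hnull : Null a z C Λ' := by
      intro F1 h1 hC x
      let y' : V → ℝ := fun v => if v ∈ C then x v else y v
      have hyC : ∀ v ∈ C, y' v = x v := fun v hv => if_pos hv
      have hyD : ∀ v ∈ D, y' v = y v := fun v hv => if_neg (hnC v hv)
      have e := bilin ha z hCD hn h1 h2 hC hD y'
      rw [Lam.P_congr a z F1 (x := y') (y := x) (by rw [hC]; exact hyC),
        Lam.P_congr a z F2 (x := y') (y := y) (by rw [hD]; exact hyD)] at e
      rw [← e]
      refine Finset.sum_congr rfl (fun u hu => ?_)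
      rw [hyC u hu, hΛ']
      congr 1
      refine Finset.sum_congr rfl (fun v hv => ?_)
      rw [hyD v hv]
    have := iC Λ' hnull c f hf u hu
    rw [hΛ'] at this
    exact this
  let Λ'' : V → R →ₗ[ℝ] ℝ := fun v =>
    (LL a z C D Λ u v) ∘ₗ (LinearMap.mulLeft ℝ (mon z C c f))
  have hΛ'' : ∀ v p, Λ'' v p = LL a z C D Λ u v (mon z C c f * p) := by
    intro v p
    simp [Λ'']
  have hnull : Null a z D Λ'' := by
    intro F2 h2 hD y
    rw [← step1 F2 h2 hD y]
    refine Finset.sum_congr rfl (fun v hv => ?_)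
    rw [hΛ'', mul_comm (mon z C c f)]
  have := iD Λ'' hnull d g hg v hv
  rw [hΛ''] at this
  exact this

end Null

end Pool.Agent.Work.MP_3a76b1_co
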