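import Pool.Agent.Work.MP_3a76b1_co.O.Null

/-!
Sign flips: antisymmetrising the order products over a binary laminar family.
-/

namespace Pool.Agent.Work.MP_3a76b1_co

open Finset Function

section Order

variable {V : Type*} [DecidableEq V] {R : Type*} [CommRing R] [Algebra ℝ R]

/-- the product over the pairs of A ordered by y. -/
noncomputable def EA (a : ℕ) (z : V → V → R) (x : V → ℝ) (A : Finset V) (y : V → ℤ) : R :=
  ∏ p ∈ (A ×ˢ A).filter (fun p => y p.2 < y p.1), (1 + ((x p.1 - x p.2) ^ a) • z p.1 p.2)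

/-- the odd part of the cut product. -/
noncomputable def Od (a : ℕ) (z : V → V → R) (x : V → ℝ) (C D : Finset V) : R :=
  (∏ p ∈ C ×ˢ D, (1 + ((x p.1 - x p.2) ^ a) • z p.1 p.2)) -
    ∏ p ∈ C ×ˢ D, (1 - ((x p.1 - x p.2) ^ a) • z p.1 p.2)

/-- the product of the odd parts. -/
noncomputable def Lam.O (a : ℕ) (z : V → V → R) (x : V → ℝ) : Lam V → R
  | Lam.leaf _ => 1
  | Lam.node l r => Od a z x l.leaves r.leaves * (l.O a z x * r.O a z x)

lemma EA_congr (a : ℕ) (z : V → V → R) (x : V → ℝ) {A : Finset V} {y y' : V → ℤ}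
    (h : ∀ u ∈ A, ∀ v ∈ A, (y u < y v ↔ y' u < y' v)) : EA a z x A y = EA a z x A y' := by
  rw [EA, EA]
  congr 1
  refine Finset.filter_congr (fun p hp => ?_)
  rw [Finset.mem_product] at hp
  exact h p.2 hp.2 p.1 hp.1

lemma EA_union (a : ℕ) (z : V → V → R) (x : V → ℝ) {C D : Finset V} (hCD : Disjoint C D)
    {y : V → ℤ} (h : ∀ u ∈ C, ∀ v ∈ D, y v < y u) :
    EA a z x (C ∪ D) y = (∏ p ∈ C ×ˢ D, (1 + ((x p.1 - x p.2) ^ a) • z p.1 p.2)) *
      (EA a z x C y * EA a z x D y) := by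
  have hset : ((C ∪ D) ×ˢ (C ∪ D)).filter (fun p => y p.2 < y p.1) =
      (C ×ˢ D) ∪ ((C ×ˢ C).filter (fun p => y p.2 < y p.1) ∪
        (D ×ˢ D).filter (fun p => y p.2 < y p.1)) := by
    ext ⟨u, v⟩
    simp only [Finset.mem_filter, Finset.mem_product, Finset.mem_union]
    constructor
    · rintro ⟨⟨h1 | h1, h2 | h2⟩, h3⟩
      · exact Or.inr (Or.inl ⟨⟨h1, h2⟩, h3⟩)
      · exact Or.inl ⟨h1, h2⟩
      · exact absurd (h v h2 u h1) (by omega)
      · exact Or.inr (Or.inr ⟨⟨h1, h2⟩, h3⟩)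
    · rintro (⟨h1, h2⟩ | ⟨⟨h1, h2⟩, h3⟩ | ⟨⟨h1, h2⟩, h3⟩)
      · exact ⟨⟨Or.inl h1, Or.inr h2⟩, h u h1 v h2⟩
      · exact ⟨⟨Or.inl h1, Or.inl h2⟩, h3⟩
      · exact ⟨⟨Or.inr h1, Or.inr h2⟩, h3⟩
  rw [EA, hset, Finset.prod_union, Finset.prod_union]
  · rfl
  · rw [Finset.disjoint_left]
    rintro ⟨u, v⟩ h1 h2
    simp only [Finset.mem_filter, Finset.mem_product] at h1 h2
    exact (Finset.disjoint_left.1 hCD) h1.1.1 h2.1.1
  · rw [Finset.disjoint_left]
    rintro ⟨u, v⟩ h1 h2
    simp only [Finset.mem_filter, Finset.mem_product, Finset.mem_union] at h1 h2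
    rcases h2 with h2 | h2
    · exact (Finset.disjoint_left.1 hCD) h2.1.2 h1.2
    · exact (Finset.disjoint_left.1 hCD) h1.1 h2.1.1

lemma EA_union' {a : ℕ} (ha : Even a) (z : V → V → R) (hz : ∀ u v, z u v = - z v u)
    (x : V → ℝ) {C D : Finset V} (hCD : Disjoint C D)
    {y : V → ℤ} (h : ∀ u ∈ C, ∀ v ∈ D, y u < y v) :
    EA a z x (C ∪ D) y = (∏ p ∈ C ×ˢ D, (1 - ((x p.1 - x p.2) ^ a) • z p.1 p.2)) *
      (EA a z x C y * EA a z x D y) := by
  rw [Finset.union_comm, EA_union a z x hCD.symm (fun u hu v hv => h v hv u hu),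
    mul_comm (EA a z x D y)]
  congr 1
  rw [Finset.prod_product_right, Finset.prod_product]
  refine Finset.prod_congr rfl (fun u _ => Finset.prod_congr rfl (fun v _ => ?_))
  simp only
  rw [hz v u, smul_neg, ← sub_eq_add_neg]
  congr 2
  rw [← ha.neg_pow]
  congr 1
  ring

/-- antisymmetrisation. -/
lemma flips {a : ℕ} (ha : Even a) (z : V → V → R) (hz : ∀ u v, z u v = - z v u)
    (x : V → ℝ) (Λ : R →ₗ[ℝ] ℝ) (F : Lam V) (hF : F.Valid) : ∀ m : R,
    (∀ y : V → ℤ, Set.InjOn y (F.leaves : Set V) → Λ (EA a z x F.leaves y * m) = 0) →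
    Λ (F.O a z x * m) = 0 := by
  induction F with
  | leaf v =>
    intro m h
    have h1 := h (fun _ => 0) (by
      intro u hu w hw _
      simp only [Lam.leaves, Finset.coe_singleton, Set.mem_singleton_iff] at hu hw
      rw [hu, hw])
    have h2 : EA a z x (Lam.leaf v).leaves (fun _ => 0) = 1 := by
      rw [EA, Finset.filter_false_of_mem, Finset.prod_empty]
      intro p _
      simp
    rw [h2] at h1
    exact h1
  | node l r ihl ihr =>
    obtain ⟨hl, hr, hdis⟩ := hF
    intro m h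
    have key : ∀ yl yr : V → ℤ, Set.InjOn yl (l.leaves : Set V) →
        Set.InjOn yr (r.leaves : Set V) →
        Λ (EA a z x l.leaves yl * (EA a z x r.leaves yr * (Od a z x l.leaves r.leaves * m))) =
          0 := by
      intro yl yr hyl hyr
      obtain ⟨M, hM⟩ : ∃ M : ℤ, ∀ u ∈ l.leaves, ∀ v ∈ r.leaves,
          -M < yl u - yr v ∧ yl u - yr v < M := by
        obtain ⟨B, hB⟩ := ((l.leaves ×ˢ r.leaves).image (fun p => |yl p.1 - yr p.2|)).bddAbove
        refine ⟨B + 1, fun u hu v hv => ?_⟩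
        have h1 := hB (Finset.mem_coe.2 (Finset.mem_image.2
          ⟨(u, v), Finset.mem_product.2 ⟨hu, hv⟩, rfl⟩))
        have h2 := abs_le.1 h1
        simp only at h2
        omega
      have hnr : ∀ v ∈ r.leaves, v ∉ l.leaves := fun v hv h0 =>
        (Finset.disjoint_left.1 hdis) h0 hv
      let y : ℤ → V → ℤ := fun s v => if v ∈ l.leaves then yl v + s else yr v
      have hy1 : ∀ s, ∀ v ∈ l.leaves, y s v = yl v + s := fun s v hv => if_pos hv
      have hy2 : ∀ s, ∀ v ∈ r.leaves, y s v = yr v := fun s v hv => if_neg (hnr v hv)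
      have inj : ∀ s : ℤ, (∀ u ∈ l.leaves, ∀ v ∈ r.leaves, yl u + s ≠ yr v) →
          Set.InjOn (y s) ((Lam.node l r).leaves : Set V) := by
        intro s hs u hu v hv huv
        simp only [Lam.leaves, Finset.coe_union, Set.mem_union, Finset.mem_coe] at hu hv
        rcases hu with hu | hu <;> rcases hv with hv | hv
        · rw [hy1 s u hu, hy1 s v hv] at huv
          exact hyl hu hv (by omega)
        · rw [hy1 s u hu, hy2 s v hv] at huv
          exact absurd huv (hs u hu v hv)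
        · rw [hy2 s u hu, hy1 s v hv] at huv
          exact absurd huv.symm (hs v hv u hu)
        · rw [hy2 s u hu, hy2 s v hv] at huv
          exact hyr hu hv huv
      have eC : ∀ s, EA a z x l.leaves (y s) = EA a z x l.leaves yl := by
        intro s
        refine EA_congr a z x (fun u hu v hv => ?_)
        rw [hy1 s u hu, hy1 s v hv]
        omega
      have eD : ∀ s, EA a z x r.leaves (y s) = EA a z x r.leaves yr := by
        intro s
        refine EA_congr a z x (fun u hu v hv => ?_)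
        rw [hy2 s u hu, hy2 s v hv]
      have h1 := h (y M) (inj M (fun u hu v hv => by have := hM u hu v hv; omega))
      have h2 := h (y (-M)) (inj (-M) (fun u hu v hv => by have := hM u hu v hv; omega))
      rw [Lam.leaves, EA_union a z x hdis (y := y M) (by
        intro u hu v hv
        rw [hy1 M u hu, hy2 M v hv]
        have := hM u hu v hv
        omega), eC, eD] at h1
      rw [Lam.leaves, EA_union' ha z hz x hdis (y := y (-M)) (by
        intro u hu v hv
        rw [hy1 (-M) u hu, hy2 (-M) v hv]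
        have := hM u hu v hv
        omega), eC, eD] at h2
      have h3 : EA a z x l.leaves yl * (EA a z x r.leaves yr *
          (Od a z x l.leaves r.leaves * m)) =
          (∏ p ∈ l.leaves ×ˢ r.leaves, (1 + ((x p.1 - x p.2) ^ a) • z p.1 p.2)) *
            (EA a z x l.leaves yl * EA a z x r.leaves yr) * m -
          (∏ p ∈ l.leaves ×ˢ r.leaves, (1 - ((x p.1 - x p.2) ^ a) • z p.1 p.2)) *
            (EA a z x l.leaves yl * EA a z x r.leaves yr) * m := by
        rw [Od]
        ring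
      rw [h3, map_sub, h1, h2, sub_zero]
    have h1 : ∀ yr : V → ℤ, Set.InjOn yr (r.leaves : Set V) →
        Λ (l.O a z x * (EA a z x r.leaves yr * (Od a z x l.leaves r.leaves * m))) = 0 :=
      fun yr hyr => ihl hl _ (fun yl hyl => key yl yr hyl hyr)
    have h2 : Λ (r.O a z x * (l.O a z x * (Od a z x l.leaves r.leaves * m))) = 0 := by
      refine ihr hr _ (fun yr hyr => ?_)
      rw [← h1 yr hyr]
      congr 1
      ring
    rw [← h2, Lam.O]
    congr 1
    ring

end Order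

section Filtration

variable {I : Type*}

/-- no monomials of degree less than k. -/
def Fil (k : ℕ) (p : MvPolynomial I ℝ) : Prop :=
  ∀ m : I →₀ ℕ, m.degree < k → MvPolynomial.coeff m p = 0

lemma Fil.zero (p : MvPolynomial I ℝ) : Fil 0 p := fun m h => absurd h (by omega)

lemma Fil.mono {k l : ℕ} (h : l ≤ k) {p : MvPolynomial I ℝ} (hp : Fil k p) : Fil l p :=
  fun m hm => hp m (by omega)

lemma Fil.add {k : ℕ} {p q : MvPolynomial I ℝ} (hp : Fil k p) (hq : Fil k q) :
    Fil k (p + q) := fun m hm => by rw [MvPolynomial.coeff_add, hp m hm, hq m hm, add_zero]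

lemma Fil.sub {k : ℕ} {p q : MvPolynomial I ℝ} (hp : Fil k p) (hq : Fil k q) :
    Fil k (p - q) := fun m hm => by rw [MvPolynomial.coeff_sub, hp m hm, hq m hm, sub_zero]

lemma Fil.neg {k : ℕ} {p : MvPolynomial I ℝ} (hp : Fil k p) :
    Fil k (-p) := fun m hm => by rw [MvPolynomial.coeff_neg, hp m hm, neg_zero]

lemma Fil.smul {k : ℕ} {p : MvPolynomial I ℝ} (c : ℝ) (hp : Fil k p) :
    Fil k (c • p) := fun m hm => by rw [MvPolynomial.coeff_smul, hp m hm, smul_zero]

lemma Fil.sum {ι : Type*} {k : ℕ} (s : Finset ι) {p : ι → MvPolynomial I ℝ}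
    (hp : ∀ i ∈ s, Fil k (p i)) : Fil k (∑ i ∈ s, p i) := fun m hm => by
  rw [MvPolynomial.coeff_sum]
  exact Finset.sum_eq_zero (fun i hi => hp i hi m hm)

lemma Fil.mul {k l : ℕ} {p q : MvPolynomial I ℝ} (hp : Fil k p) (hq : Fil l q) :
    Fil (k + l) (p * q) := fun m hm => by
  classical
  rw [MvPolynomial.coeff_mul]
  refine Finset.sum_eq_zero (fun i hi => ?_)
  rw [HasAntidiagonal.mem_antidiagonal] at hi
  by_cases h1 : i.1.degree < k
  · rw [hp _ h1, zero_mul]
  · have h2 : i.1.degree + i.2.degree = m.degree := by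
      rw [← hi, map_add]
    rw [hq i.2 (by omega), mul_zero]

lemma Fil.X (i : I) : Fil 1 (MvPolynomial.X i : MvPolynomial I ℝ) := fun m hm => by
  classical
  rw [MvPolynomial.coeff_X, if_neg]
  rintro rfl
  simp at hm

lemma Fil.prod_one_add {ι : Type*} (s : Finset ι) {b : ι → MvPolynomial I ℝ}
    (hb : ∀ i ∈ s, Fil 1 (b i)) :
    Fil 2 ((∏ i ∈ s, (1 + b i)) - (1 + ∑ i ∈ s, b i)) := by
  classical
  induction s using Finset.induction_on with
  | empty => simp only [Finset.prod_empty, Finset.sum_empty, add_zero, sub_self]; exact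
      fun m _ => MvPolynomial.coeff_zero m
  | insert j s hj ih =>
    have hs : ∀ i ∈ s, Fil 1 (b i) := fun i hi => hb i (Finset.mem_insert_of_mem hi)
    have hjj : Fil 1 (b j) := hb j (Finset.mem_insert_self _ _)
    have h1 := ih hs
    rw [Finset.prod_insert hj, Finset.sum_insert hj]
    have h2 : (1 + b j) * ∏ i ∈ s, (1 + b i) - (1 + (b j + ∑ i ∈ s, b i)) =
        ((∏ i ∈ s, (1 + b i)) - (1 + ∑ i ∈ s, b i)) +
        (b j * ((∏ i ∈ s, (1 + b i)) - (1 + ∑ i ∈ s, b i)) + b j * ∑ i ∈ s, b i) := by ring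
    rw [h2]
    exact h1.add (((hjj.mul h1).mono (by norm_num)).add (hjj.mul (Fil.sum s hs)))

variable {V : Type*} [DecidableEq V]

lemma Od_fil (a : ℕ) (z : V → V → MvPolynomial I ℝ) (hz : ∀ u v, Fil 1 (z u v)) (x : V → ℝ)
    (C D : Finset V) : Fil 2 (Od a z x C D - (2 : ℝ) • cr a z x C D) := by
  have h1 := Fil.prod_one_add (C ×ˢ D) (b := fun p => ((x p.1 - x p.2) ^ a) • z p.1 p.2)
    (fun p _ => (hz _ _).smul _)
  have h2 := Fil.prod_one_add (C ×ˢ D) (b := fun p => - (((x p.1 - x p.2) ^ a) • z p.1 p.2))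
    (fun p _ => ((hz _ _).smul _).neg)
  have h3 : Od a z x C D - (2 : ℝ) • cr a z x C D =
      ((∏ p ∈ C ×ˢ D, (1 + ((x p.1 - x p.2) ^ a) • z p.1 p.2)) -
        (1 + ∑ p ∈ C ×ˢ D, ((x p.1 - x p.2) ^ a) • z p.1 p.2)) -
      ((∏ p ∈ C ×ˢ D, (1 + -(((x p.1 - x p.2) ^ a) • z p.1 p.2))) -
        (1 + ∑ p ∈ C ×ˢ D, -(((x p.1 - x p.2) ^ a) • z p.1 p.2))) := by
    rw [Od, cr, Finset.sum_product, Finset.sum_product]
    simp only [← sub_eq_add_neg, Finset.sum_neg_distrib]
    rw [two_smul]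
    ring
  rw [h3]
  exact h1.sub h2

lemma cr_fil (a : ℕ) (z : V → V → MvPolynomial I ℝ) (hz : ∀ u v, Fil 1 (z u v)) (x : V → ℝ)
    (C D : Finset V) : Fil 1 (cr a z x C D) :=
  Fil.sum _ (fun u _ => Fil.sum _ (fun v _ => (hz u v).smul _))

lemma P_fil (a : ℕ) (z : V → V → MvPolynomial I ℝ) (hz : ∀ u v, Fil 1 (z u v)) (x : V → ℝ)
    (F : Lam V) : Fil F.rk (F.P a z x) := by
  induction F with
  | leaf v => exact Fil.zero _
  | node l r ihl ihr =>
    rw [Lam.P, Lam.rk]
    exact ((cr_fil a z hz x _ _).mul (ihl.mul ihr)).mono (by omega)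

lemma O_fil (a : ℕ) (z : V → V → MvPolynomial I ℝ) (hz : ∀ u v, Fil 1 (z u v)) (x : V → ℝ)
    (F : Lam V) : Fil (F.rk + 1) (F.O a z x - (2 ^ F.rk : ℝ) • F.P a z x) := by
  induction F with
  | leaf v =>
    simp only [Lam.O, Lam.P, Lam.rk, pow_zero, one_smul, sub_self]
    exact fun m _ => MvPolynomial.coeff_zero m
  | node l r ihl ihr =>
    rw [Lam.O, Lam.P, Lam.rk]
    have hP := P_fil a z hz x l
    have hQ := P_fil a z hz x r
    have hOl : Fil l.rk (l.O a z x) := by
      have := (ihl.mono (Nat.le_succ _)).add (hP.smul (2 ^ l.rk : ℝ))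
      rwa [sub_add_cancel] at this
    have hOr : Fil r.rk (r.O a z x) := by
      have := (ihr.mono (Nat.le_succ _)).add (hQ.smul (2 ^ r.rk : ℝ))
      rwa [sub_add_cancel] at this
    have h1 : Od a z x l.leaves r.leaves * (l.O a z x * r.O a z x) -
        (2 ^ (l.rk + r.rk + 1) : ℝ) • (cr a z x l.leaves r.leaves *
          (l.P a z x * r.P a z x)) =
        (Od a z x l.leaves r.leaves - (2 : ℝ) • cr a z x l.leaves r.leaves) *
          (l.O a z x * r.O a z x) +
        ((2 : ℝ) • cr a z x l.leaves r.leaves) *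
          ((l.O a z x - (2 ^ l.rk : ℝ) • l.P a z x) * r.O a z x +
          ((2 ^ l.rk : ℝ) • l.P a z x) * (r.O a z x - (2 ^ r.rk : ℝ) • r.P a z x)) := by
      have e : ((2 : ℝ) • cr a z x l.leaves r.leaves) *
          (((2 ^ l.rk : ℝ) • l.P a z x) * ((2 ^ r.rk : ℝ) • r.P a z x)) =
          (2 ^ (l.rk + r.rk + 1) : ℝ) • (cr a z x l.leaves r.leaves *
          (l.P a z x * r.P a z x)) := by
        simp only [smul_mul_assoc, mul_smul_comm, smul_smul]
        congr 1
        ring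
      rw [← e]
      ring
    rw [h1]
    refine Fil.add (((Od_fil a z hz x _ _).mul (hOl.mul hOr)).mono (by omega)) ?_
    refine (((cr_fil a z hz x _ _).smul 2).mul (k := 1) (l := l.rk + r.rk + 1) ?_).mono
      (by omega)
    exact ((ihl.mul hOr).mono (by omega)).add (((hP.smul _).mul ihr).mono (by omega))

end Filtration

lemma Lam.rk_card {V : Type*} [DecidableEq V] (F : Lam V) (hF : F.Valid) :
    F.rk + 1 = F.leaves.card := by
  induction F with
  | leaf v => simp [Lam.rk, Lam.leaves]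
  | node l r ihl ihr =>
    obtain ⟨hl, hr, hdis⟩ := hF
    rw [Lam.rk, Lam.leaves, Finset.card_union_of_disjoint hdis, ← ihl hl, ← ihr hr]
    ring

end Pool.Agent.Work.MP_3a76b1_co
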