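import Mathlib

/-!
Rooted trees on a finite set given by parent functions: cutting and re-hanging subtrees.
-/

namespace Pool.Agent.Work.MP_3a76b1_co

open Finset Function

section TreeFun

variable {V : Type*} [DecidableEq V]

/-- f is the parent function of a tree on A with root r. -/
def TF (A : Finset V) (r : V) (f : V → V) : Prop :=
  r ∈ A ∧ f r = r ∧ (∀ v ∈ A, f v ∈ A) ∧ ∀ v ∈ A, ∃ k, f^[k] v = r

/-- the vertices of A below v. -/
noncomputable def sub (A : Finset V) (f : V → V) (v : V) : Finset V :=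
  @Finset.filter V (fun u => ∃ k, f^[k] u = v) (Classical.decPred _) A

lemma mem_sub {A : Finset V} {f : V → V} {v u : V} :
    u ∈ sub A f v ↔ u ∈ A ∧ ∃ k, f^[k] u = v := by
  simp [sub]

lemma sub_subset (A : Finset V) (f : V → V) (v : V) : sub A f v ⊆ A :=
  fun _ hu => (mem_sub.1 hu).1

omit [DecidableEq V] in
lemma iter_fix {f : V → V} {r : V} (h : f r = r) (k : ℕ) : f^[k] r = r := by
  induction k with
  | zero => rfl
  | succ k ih => rw [iterate_succ_apply, h, ih]

variable {A : Finset V} {r v : V} {f : V → V}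

lemma self_mem_sub (hv : v ∈ A) : v ∈ sub A f v := mem_sub.2 ⟨hv, 0, rfl⟩

lemma root_not_mem_sub (hr : f r = r) (hvr : v ≠ r) : r ∉ sub A f v := by
  rw [mem_sub]
  rintro ⟨_, k, hk⟩
  rw [iter_fix hr] at hk
  exact hvr hk.symm

lemma map_mem_sub (hm : ∀ v ∈ A, f v ∈ A) {u : V} (hu : u ∈ sub A f v) (huv : u ≠ v) :
    f u ∈ sub A f v := by
  rw [mem_sub] at hu ⊢
  obtain ⟨h1, k, hk⟩ := hu
  refine ⟨hm u h1, ?_⟩
  cases k with
  | zero => exact absurd hk huv
  | succ k => exact ⟨k, by rwa [iterate_succ_apply] at hk⟩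

lemma map_not_mem_sub {u : V} (hu : u ∈ A) (hn : u ∉ sub A f v) : f u ∉ sub A f v := by
  intro h
  rw [mem_sub] at h
  obtain ⟨_, k, hk⟩ := h
  exact hn (mem_sub.2 ⟨hu, k + 1, by rw [iterate_succ_apply]; exact hk⟩)

omit [DecidableEq V] in
lemma reach_transfer {f g : V → V} {s : V} (P : V → Prop)
    (hP : ∀ u, P u → u ≠ s → (g u = f u ∧ P (f u))) :
    ∀ k u, P u → f^[k] u = s → ∃ j, g^[j] u = s := by
  intro k
  induction k with
  | zero => intro u _ hk; exact ⟨0, hk⟩
  | succ k ih =>
    intro u hu hk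
    by_cases hus : u = s
    · exact ⟨0, hus⟩
    · obtain ⟨h1, h2⟩ := hP u hu hus
      rw [iterate_succ_apply] at hk
      obtain ⟨j, hj⟩ := ih (f u) h2 hk
      exact ⟨j + 1, by rw [iterate_succ_apply, h1, hj]⟩

omit [DecidableEq V] in
lemma iter_mem {g : V → V} (P : V → Prop) (hP : ∀ u, P u → P (g u)) (k : ℕ) {u : V} (hu : P u) :
    P (g^[k] u) := by
  induction k generalizing u with
  | zero => exact hu
  | succ k ih => rw [iterate_succ_apply]; exact ih (hP u hu)

lemma TF_sub (h : TF A r f) (hv : v ∈ A) : TF (sub A f v) v (update f v v) := by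
  obtain ⟨h1, h2, h3, h4⟩ := h
  refine ⟨self_mem_sub hv, update_self _ _ _, ?_, ?_⟩
  · intro u hu
    by_cases huv : u = v
    · subst huv
      rw [update_self]
      exact self_mem_sub hv
    · rw [update_of_ne huv]
      exact map_mem_sub h3 hu huv
  · intro u hu
    obtain ⟨_, k, hk⟩ := mem_sub.1 hu
    exact reach_transfer (f := f) (fun _ => True)
      (fun w _ hw => ⟨update_of_ne hw _ _, trivial⟩) k u trivial hk

lemma TF_sdiff (h : TF A r f) (hvr : v ≠ r) : TF (A \ sub A f v) r f := by
  obtain ⟨h1, h2, h3, h4⟩ := h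
  refine ⟨Finset.mem_sdiff.2 ⟨h1, root_not_mem_sub h2 hvr⟩, h2, ?_, ?_⟩
  · intro u hu
    rw [Finset.mem_sdiff] at hu ⊢
    exact ⟨h3 u hu.1, map_not_mem_sub hu.1 hu.2⟩
  · intro u hu
    exact h4 u (Finset.mem_sdiff.1 hu).1

lemma TF_move (h : TF A r f) (hv : v ∈ A) (hvr : v ≠ r) {w : V} (hw : w ∈ A \ sub A f v) :
    TF A r (update f v w) := by
  obtain ⟨h1, h2, h3, h4⟩ := h
  have hout : ∀ u ∈ A \ sub A f v, ∃ j, (update f v w)^[j] u = r := by
    intro u hu
    obtain ⟨k, hk⟩ := h4 u (Finset.mem_sdiff.1 hu).1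
    refine reach_transfer (f := f) (fun u => u ∈ A \ sub A f v) ?_ k u hu hk
    intro u hu _
    rw [Finset.mem_sdiff] at hu
    have huv : u ≠ v := by
      rintro rfl
      exact hu.2 (self_mem_sub hv)
    exact ⟨update_of_ne huv _ _, Finset.mem_sdiff.2 ⟨h3 u hu.1, map_not_mem_sub hu.1 hu.2⟩⟩
  refine ⟨h1, by rw [update_of_ne hvr.symm, h2], ?_, ?_⟩
  · intro u hu
    by_cases huv : u = v
    · subst huv
      rw [update_self]
      exact (Finset.mem_sdiff.1 hw).1
    · rw [update_of_ne huv]
      exact h3 u hu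
  · intro u hu
    by_cases hus : u ∈ sub A f v
    · obtain ⟨_, k, hk⟩ := mem_sub.1 hus
      obtain ⟨j, hj⟩ := reach_transfer (f := f) (g := update f v w) (s := v) (fun _ => True)
        (fun x _ hx => ⟨update_of_ne hx _ _, trivial⟩) k u trivial hk
      obtain ⟨i, hi⟩ := hout w hw
      refine ⟨i + (1 + j), ?_⟩
      rw [iterate_add_apply, iterate_add_apply, hj, iterate_one, update_self, hi]
    · exact hout u (Finset.mem_sdiff.2 ⟨hu, hus⟩)

lemma not_TF_move (h : TF A r f) (hv : v ∈ A) (hvr : v ≠ r) {w : V} (hw : w ∈ sub A f v) :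
    ¬ TF A r (update f v w) := by
  intro h'
  obtain ⟨k, hk⟩ := h'.2.2.2 v hv
  have h1 : (update f v w)^[k] v ∈ sub A f v := by
    refine iter_mem (fun u => u ∈ sub A f v) ?_ k (self_mem_sub hv)
    intro u hu
    by_cases huv : u = v
    · subst huv
      rw [update_self]
      exact hw
    · rw [update_of_ne huv]
      exact map_mem_sub h.2.2.1 hu huv
  rw [hk] at h1
  exact root_not_mem_sub h.2.1 hvr h1

lemma TF_flip (h : TF A r f) (hv : v ∈ A) (hvr : v ≠ r) {w : V} (hw : w ∈ sub A f v) :
    TF A v (update (update f v v) r w) := by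
  obtain ⟨h1, h2, h3, h4⟩ := h
  have hin : ∀ u ∈ sub A f v, ∃ j, (update (update f v v) r w)^[j] u = v := by
    intro u hu
    obtain ⟨_, k, hk⟩ := mem_sub.1 hu
    refine reach_transfer (f := f) (fun u => u ∈ sub A f v) ?_ k u hu hk
    intro x hx hxv
    have hxr : x ≠ r := by
      rintro rfl
      exact root_not_mem_sub h2 hvr hx
    exact ⟨by rw [update_of_ne hxr, update_of_ne hxv], map_mem_sub h3 hx hxv⟩
  refine ⟨hv, by rw [update_of_ne hvr, update_self], ?_, ?_⟩
  · intro u hu
    by_cases hur : u = r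
    · subst hur
      rw [update_self]
      exact (mem_sub.1 hw).1
    · rw [update_of_ne hur]
      by_cases huv : u = v
      · subst huv
        rw [update_self]
        exact hv
      · rw [update_of_ne huv]
        exact h3 u hu
  · intro u hu
    by_cases hus : u ∈ sub A f v
    · exact hin u hus
    · obtain ⟨k, hk⟩ := h4 u hu
      obtain ⟨j, hj⟩ := reach_transfer (f := f) (g := update (update f v v) r w) (s := r)
        (fun u => u ∈ A ∧ u ∉ sub A f v) (by
          intro x hx hxr
          have hxv : x ≠ v := by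
            rintro rfl
            exact hx.2 (self_mem_sub hv)
          exact ⟨by rw [update_of_ne hxr, update_of_ne hxv],
            h3 x hx.1, map_not_mem_sub hx.1 hx.2⟩) k u ⟨hu, hus⟩ hk
      obtain ⟨i, hi⟩ := hin w hw
      refine ⟨i + (1 + j), ?_⟩
      rw [iterate_add_apply, iterate_add_apply, hj, iterate_one, update_self, hi]

lemma not_TF_flip (h : TF A r f) (hvr : v ≠ r) {w : V} (hv : v ∈ A) (hw : w ∉ sub A f v)
    (hwA : w ∈ A) : ¬ TF A v (update (update f v v) r w) := by
  intro h'
  obtain ⟨k, hk⟩ := h'.2.2.2 r h.1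
  have h1 : (update (update f v v) r w)^[k] r ∈ A \ sub A f v := by
    refine iter_mem (fun u => u ∈ A \ sub A f v) ?_ k
      (Finset.mem_sdiff.2 ⟨h.1, root_not_mem_sub h.2.1 hvr⟩)
    intro u hu
    rw [Finset.mem_sdiff] at hu ⊢
    by_cases hur : u = r
    · subst hur
      rw [update_self]
      exact ⟨hwA, hw⟩
    · rw [update_of_ne hur]
      have huv : u ≠ v := by
        rintro rfl
        exact hu.2 (self_mem_sub hv)
      rw [update_of_ne huv]
      exact ⟨h.2.2.1 u hu.1, map_not_mem_sub hu.1 hu.2⟩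
  rw [hk] at h1
  exact (Finset.mem_sdiff.1 h1).2 (self_mem_sub hv)

/-- if a move of v away from r gives a tree with root r then the original is a tree. -/
lemma TF_of_move (hr : f r = r) (hv : v ∈ A) (hvr : v ≠ r) (hfv : f v = r) {w : V}
    (h : TF A r (update f v w)) : TF A r f := by
  obtain ⟨h1, h2, h3, h4⟩ := h
  refine ⟨h1, hr, ?_, ?_⟩
  · intro u hu
    by_cases huv : u = v
    · subst huv
      rw [hfv]
      exact h1
    · have := h3 u hu
      rwa [update_of_ne huv] at this
  · intro u hu
    obtain ⟨k, hk⟩ := h4 u hu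
    have claim : ∀ k u, (update f v w)^[k] u = r → ∃ j, f^[j] u = r := by
      intro k
      induction k with
      | zero => intro u hk; exact ⟨0, hk⟩
      | succ k ih =>
        intro u hk
        rw [iterate_succ_apply] at hk
        by_cases huv : u = v
        · exact ⟨1, by rw [huv, iterate_one, hfv]⟩
        · rw [update_of_ne huv] at hk
          obtain ⟨j, hj⟩ := ih (f u) hk
          exact ⟨j + 1, by rw [iterate_succ_apply, hj]⟩
    exact claim k u hk

lemma TF_of_flip (hr : f r = r) (hrA : r ∈ A) (hv : v ∈ A) (hvr : v ≠ r) (hfv : f v = r)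
    {w : V} (h : TF A v (update (update f v v) r w)) : TF A r f := by
  obtain ⟨h1, h2, h3, h4⟩ := h
  refine ⟨hrA, hr, ?_, ?_⟩
  · intro u hu
    by_cases huv : u = v
    · subst huv
      rw [hfv]
      exact hrA
    · by_cases hur : u = r
      · subst hur
        rw [hr]
        exact hrA
      · have := h3 u hu
        rwa [update_of_ne hur, update_of_ne huv] at this
  · intro u hu
    obtain ⟨k, hk⟩ := h4 u hu
    have claim : ∀ k u, (update (update f v v) r w)^[k] u = v → ∃ j, f^[j] u = r := by
      intro k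
      induction k with
      | zero =>
        intro u hk
        refine ⟨1, ?_⟩
        rw [iterate_one]
        have : u = v := hk
        rw [this, hfv]
      | succ k ih =>
        intro u hk
        rw [iterate_succ_apply] at hk
        by_cases huv : u = v
        · exact ⟨1, by rw [huv, iterate_one, hfv]⟩
        · by_cases hur : u = r
          · exact ⟨0, hur⟩
          · rw [update_of_ne hur, update_of_ne huv] at hk
            obtain ⟨j, hj⟩ := ih (f u) hk
            exact ⟨j + 1, by rw [iterate_succ_apply, hj]⟩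
    exact claim k u hk

/-- the subtrees at the children of the root partition the other vertices. -/
lemma sum_children (h : TF A r f) (g : V → ℝ) :
    ∑ v ∈ (A.erase r).filter (fun v => f v = r), ∑ w ∈ sub A f v, g w =
      ∑ w ∈ A.erase r, g w := by
  classical
  obtain ⟨h1, h2, h3, h4⟩ := h
  rw [Finset.sum_comm' (t' := A.erase r) (s' := fun w =>
    ((A.erase r).filter (fun v => f v = r)).filter (fun v => w ∈ sub A f v))]
  · refine Finset.sum_congr rfl (fun w hw => ?_)
    rw [Finset.mem_erase] at hw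
    have hcard : (((A.erase r).filter (fun v => f v = r)).filter
        (fun v => w ∈ sub A f v)).card = 1 := by
      rw [Finset.card_eq_one]
      obtain ⟨k, hk⟩ := h4 w hw.2
      have hex : ∃ k, f^[k] w = r := ⟨k, hk⟩
      have hmin := Nat.find_spec hex
      set m := Nat.find hex with hm
      have hm0 : m ≠ 0 := by
        intro h0
        rw [h0] at hmin
        exact hw.1 hmin
      obtain ⟨j, hj⟩ := Nat.exists_eq_succ_of_ne_zero hm0
      have hjr : f^[j] w ≠ r := fun h0 => by
        have := Nat.find_min hex (m := j) (by omega)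
        exact this h0
      have hjc : f (f^[j] w) = r := by
        rw [← iterate_succ_apply' f j w]
        rw [hj] at hmin
        exact hmin
      have hjA : f^[j] w ∈ A := iter_mem (fun u => u ∈ A) h3 j hw.2
      refine ⟨f^[j] w, ?_⟩
      ext v
      simp only [Finset.mem_filter, Finset.mem_erase, Finset.mem_singleton, mem_sub]
      constructor
      · rintro ⟨⟨⟨hvr, hvA⟩, hfv⟩, _, i, hi⟩
        rcases lt_trichotomy i j with hij | hij | hij
        · exfalso
          apply hjr
          obtain ⟨c, rfl⟩ : ∃ c, j = c + (1 + i) := ⟨j - (1 + i), by omega⟩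
          rw [iterate_add_apply, iterate_add_apply, hi, iterate_one, hfv, iter_fix h2]
        · rw [← hij, hi]
        · exfalso
          apply hvr
          obtain ⟨c, rfl⟩ : ∃ c, i = c + (1 + j) := ⟨i - (1 + j), by omega⟩
          rw [← hi, iterate_add_apply, iterate_add_apply, iterate_one, hjc, iter_fix h2]
      · rintro rfl
        exact ⟨⟨⟨hjr, hjA⟩, hjc⟩, hw.2, j, rfl⟩
    rw [Finset.sum_const, hcard, one_smul]
  · intro v w
    simp only [Finset.mem_filter, Finset.mem_erase]
    constructor
    · rintro ⟨⟨⟨h5, h6⟩, h7⟩, h8⟩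
      refine ⟨⟨⟨⟨h5, h6⟩, h7⟩, h8⟩, ?_, sub_subset _ _ _ h8⟩
      rintro rfl
      exact root_not_mem_sub h2 h5 h8
    · rintro ⟨⟨⟨h5, h6⟩, h8⟩, h9⟩
      exact ⟨⟨h5, h6⟩, h8⟩

lemma exists_child (h : TF A r f) (hA : 2 ≤ A.card) : ∃ v ∈ A, v ≠ r ∧ f v = r := by
  by_contra hcon
  push Not at hcon
  have h1 := sum_children h (fun _ => (1 : ℝ))
  rw [Finset.filter_eq_empty_iff.2] at h1
  · rw [Finset.sum_empty, Finset.sum_const, Finset.card_erase_of_mem h.1, nsmul_eq_mul,
      mul_one] at h1
    have h2 : A.card - 1 = 0 := by exact_mod_cast h1.symm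
    omega
  · intro v hv
    rw [Finset.mem_erase] at hv
    exact hcon v hv.2 hv.1

end TreeFun

end Pool.Agent.Work.MP_3a76b1_co
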