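import Pool.Agent.Work.MP_3a76b1_co.O.LOne
import Pool.Agent.Work.MP_3a76b1_co.O.Signs

/-!
Relations between products of even powers times signs over sets of edges.
-/

namespace Pool.Agent.Work.MP_3a76b1_co

open Finset Function

section Coeff

variable {I : Type*} [Fintype I] [DecidableEq I]

/-- indicator exponent of a set. -/
noncomputable def ind (T : Finset I) : I →₀ ℕ := ∑ i ∈ T, Finsupp.single i 1

lemma ind_apply (T : Finset I) (i : I) : ind T i = if i ∈ T then 1 else 0 := by
  rw [ind, Finsupp.finsetSum_apply]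
  simp [Finsupp.single_apply]

lemma ind_inj : Injective (ind : Finset I → (I →₀ ℕ)) := by
  intro S T h
  ext i
  have h1 := DFunLike.congr_fun h i
  rw [ind_apply, ind_apply] at h1
  by_cases h2 : i ∈ S <;> by_cases h3 : i ∈ T <;> simp_all

lemma ind_degree (T : Finset I) : (ind T).degree = T.card := by
  rw [ind, map_sum]
  simp

lemma prod_smul_X (S : Finset I) (b : I → ℝ) :
    ∏ i ∈ S, (b i • (MvPolynomial.X i : MvPolynomial I ℝ)) =
      MvPolynomial.monomial (ind S) (∏ i ∈ S, b i) := by
  induction S using Finset.induction_on with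
  | empty => simp [ind]
  | insert j S hj ih =>
    rw [Finset.prod_insert hj, Finset.prod_insert hj, ih]
    have h1 : ind (insert j S) = Finsupp.single j 1 + ind S := by
      rw [ind, Finset.sum_insert hj, ind]
    rw [h1, MvPolynomial.X, MvPolynomial.smul_monomial, MvPolynomial.monomial_mul,
      smul_eq_mul, mul_one]

lemma coeff_prod (T : Finset I) (b : I → ℝ) :
    MvPolynomial.coeff (ind T) (∏ i, (1 + b i • (MvPolynomial.X i : MvPolynomial I ℝ))) =
      ∏ i ∈ T, b i := by
  have h1 : (∏ i, (1 + b i • (MvPolynomial.X i : MvPolynomial I ℝ))) =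
      ∑ S : Finset I, MvPolynomial.monomial (ind S) (∏ i ∈ S, b i) := by
    simp_rw [add_comm (1 : MvPolynomial I ℝ)]
    rw [Finset.prod_add_one]
    rw [Finset.powerset_univ]
    exact Finset.sum_congr rfl (fun S _ => prod_smul_X S b)
  rw [h1, MvPolynomial.coeff_sum]
  simp only [MvPolynomial.coeff_monomial]
  rw [Finset.sum_eq_single T]
  · rw [if_pos rfl]
  · intro S _ hS
    rw [if_neg (fun h => hS (ind_inj h))]
  · intro h
    exact absurd (Finset.mem_univ _) h

/-- the functional with prescribed values on square free monomials. -/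
noncomputable def Lc (c : Finset I → ℝ) : MvPolynomial I ℝ →ₗ[ℝ] ℝ :=
  ∑ T : Finset I, c T • MvPolynomial.lcoeff ℝ (ind T)

lemma Lc_apply (c : Finset I → ℝ) (p : MvPolynomial I ℝ) :
    Lc c p = ∑ T : Finset I, c T * MvPolynomial.coeff (ind T) p := by
  simp [Lc]

end Coeff

section Edges

variable {V I : Type*} [Fintype V] [DecidableEq V] [Fintype I] [DecidableEq I]

/-- the orientation sign of an edge relative to a pair. -/
def ep (hd tl : I → V) (i : I) (u v : V) : ℝ :=
  (if hd i = u ∧ tl i = v then 1 else 0) - (if hd i = v ∧ tl i = u then 1 else 0)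

/-- the variable of a pair. -/
noncomputable def zz (hd tl : I → V) (u v : V) : MvPolynomial I ℝ :=
  ∑ i, ep hd tl i u v • (MvPolynomial.X i : MvPolynomial I ℝ)

lemma zz_neg (hd tl : I → V) (u v : V) : zz hd tl u v = - zz hd tl v u := by
  rw [zz, zz, ← Finset.sum_neg_distrib]
  refine Finset.sum_congr rfl (fun i _ => ?_)
  rw [← neg_smul]
  congr 1
  rw [ep, ep]
  ring

lemma zz_fil (hd tl : I → V) (u v : V) : Fil 1 (zz hd tl u v) :=
  Fil.sum _ (fun i _ => (Fil.X i).smul _)

lemma EA_univ {a : ℕ} (ha : Even a) (hd tl : I → V) (hne : ∀ i, hd i ≠ tl i)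
    (hinj : Injective (fun i => s(hd i, tl i))) (x : V → ℝ) {y : V → ℤ} (hy : Injective y) :
    EA a (zz hd tl) x univ y = ∏ i, (1 + ((if y (tl i) < y (hd i) then 1 else -1) *
      (x (hd i) - x (tl i)) ^ a) • (MvPolynomial.X i : MvPolynomial I ℝ)) := by
  let g : I → V × V := fun i => if y (tl i) < y (hd i) then (hd i, tl i) else (tl i, hd i)
  have hgS : ∀ i, g i ∈ ((univ : Finset V) ×ˢ (univ : Finset V)).filter
      (fun p => y p.2 < y p.1) := by
    intro i
    simp only [Finset.mem_filter, Finset.mem_product, Finset.mem_univ, true_and]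
    simp only [g]
    split_ifs with h
    · exact h
    · have h1 : y (hd i) ≠ y (tl i) := fun h0 => hne i (hy h0)
      simp only
      omega
  have hgs : ∀ i, s((g i).1, (g i).2) = s(hd i, tl i) := by
    intro i
    simp only [g]
    split_ifs with h
    · rfl
    · exact Sym2.eq_swap
  have hginj : ∀ i j, g i = g j → i = j := by
    intro i j h
    apply hinj
    change s(hd i, tl i) = s(hd j, tl j)
    rw [← hgs i, ← hgs j, h]
  rw [EA]
  rw [← Finset.prod_fiberwise_of_maps_to (s := univ) (g := g) (fun i _ => hgS i)]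
  refine Finset.prod_congr rfl (fun p hp => ?_)
  simp only [Finset.mem_filter, Finset.mem_product, Finset.mem_univ, true_and] at hp
  have hep : ∀ i, ep hd tl i p.1 p.2 =
      if g i = p then (if y (tl i) < y (hd i) then 1 else -1) else 0 := by
    intro i
    by_cases h1 : hd i = p.1 ∧ tl i = p.2
    · have h2 : y (tl i) < y (hd i) := by rw [h1.1, h1.2]; exact hp
      have h3 : g i = p := by
        simp only [g]
        rw [if_pos h2]
        exact Prod.ext h1.1 h1.2
      have h4 : ¬ (hd i = p.2 ∧ tl i = p.1) := by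
        rintro ⟨h5, h6⟩
        rw [h5, h6] at h2
        omega
      rw [ep, if_pos h1, if_neg h4, if_pos h3, if_pos h2, sub_zero]
    · by_cases h4 : hd i = p.2 ∧ tl i = p.1
      · have h2 : ¬ y (tl i) < y (hd i) := by rw [h4.1, h4.2]; omega
        have h3 : g i = p := by
          simp only [g]
          rw [if_neg h2]
          exact Prod.ext h4.2 h4.1
        rw [ep, if_neg h1, if_pos h4, if_pos h3, if_neg h2, zero_sub]
      · have h3 : g i ≠ p := by
          intro h5
          simp only [g] at h5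
          split_ifs at h5 with h6
          · exact h1 ⟨congrArg Prod.fst h5, congrArg Prod.snd h5⟩
          · exact h4 ⟨congrArg Prod.snd h5, congrArg Prod.fst h5⟩
        rw [ep, if_neg h1, if_neg h4, if_neg h3, sub_zero]
  have hz : zz hd tl p.1 p.2 = ∑ i ∈ univ.filter (fun i => g i = p),
      ((if y (tl i) < y (hd i) then 1 else -1 : ℝ)) • (MvPolynomial.X i : MvPolynomial I ℝ) := by
    rw [zz, Finset.sum_filter]
    refine Finset.sum_congr rfl (fun i _ => ?_)
    rw [hep i]
    split_ifs <;> simp
  rw [hz]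
  have hpow : ∀ i, g i = p → (x p.1 - x p.2) ^ a = (x (hd i) - x (tl i)) ^ a := by
    intro i hi
    rw [← hi]
    simp only [g]
    split_ifs with h
    · rfl
    · simp only
      rw [← ha.neg_pow]
      congr 1
      ring
  rcases (univ.filter (fun i => g i = p)).eq_empty_or_nonempty with h0 | ⟨i, hi⟩
  · rw [h0]
    simp
  · have h1 : univ.filter (fun i => g i = p) = {i} := by
      ext j
      simp only [Finset.mem_filter, Finset.mem_univ, true_and, Finset.mem_singleton] at hi ⊢
      exact ⟨fun hj => hginj j i (hj.trans hi.symm), fun hj => hj ▸ hi⟩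
    simp only [Finset.mem_filter, Finset.mem_univ, true_and] at hi
    rw [h1, Finset.sum_singleton, Finset.prod_singleton, smul_smul, hpow i hi, mul_comm]

lemma Lc_EA {a : ℕ} (ha : Even a) (ha2 : 2 ≤ a) (hd tl : I → V) (hne : ∀ i, hd i ≠ tl i)
    (hinj : Injective (fun i => s(hd i, tl i))) (c : Finset I → ℝ)
    (h0 : ∀ x : V → ℝ, Injective x → ∑ T : Finset I, c T *
      ∏ i ∈ T, (|x (hd i) - x (tl i)| ^ (a - 1) * (x (hd i) - x (tl i))) = 0)
    {y : V → ℤ} (hy : Injective y) (x : V → ℝ) :
    Lc c (EA a (zz hd tl) x univ y) = 0 := by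
  have hform : ∀ x : V → ℝ, Lc c (EA a (zz hd tl) x univ y) = ∑ T : Finset I, c T *
      ∏ i ∈ T, ((if y (tl i) < y (hd i) then 1 else -1) * (x (hd i) - x (tl i)) ^ a) := by
    intro x
    rw [EA_univ ha hd tl hne hinj x hy, Lc_apply]
    refine Finset.sum_congr rfl (fun T _ => ?_)
    rw [coeff_prod]
  -- the polynomial
  let Q : MvPolynomial V ℝ := ∑ T : Finset I, MvPolynomial.C (c T) *
      ∏ i ∈ T, (MvPolynomial.C (if y (tl i) < y (hd i) then 1 else -1) *
        (MvPolynomial.X (hd i) - MvPolynomial.X (tl i)) ^ a)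
  have hQ : ∀ x, MvPolynomial.eval x Q = Lc c (EA a (zz hd tl) x univ y) := by
    intro x
    rw [hform]
    simp only [Q, map_sum, map_mul, map_prod, map_pow, map_sub, MvPolynomial.eval_C,
      MvPolynomial.eval_X]
  have hQ0 : Q = 0 := by
    let s : V → Set ℝ := fun v => Set.Ioo ((y v : ℤ) : ℝ) ((y v : ℤ) + 1 / 2)
    have hs : ∀ v, (s v).Infinite := fun v => Set.Ioo_infinite (by linarith)
    apply MvPolynomial.funext_set s hs
    intro x hx
    rw [map_zero, hQ, hform]
    have hxs : ∀ v, ((y v : ℤ) : ℝ) < x v ∧ x v < (y v : ℤ) + 1 / 2 :=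
      fun v => hx v (Set.mem_univ _)
    have hlt : ∀ u v, y u < y v → x u < x v := by
      intro u v huv
      have h1 := (hxs u).2
      have h2 := (hxs v).1
      have h3 : ((y u : ℤ) : ℝ) + 1 ≤ ((y v : ℤ) : ℝ) := by exact_mod_cast huv
      linarith
    have hxinj : Injective x := by
      intro u v huv
      apply hy
      rcases lt_trichotomy (y u) (y v) with h | h | h
      · exact absurd huv (hlt u v h).ne
      · exact h
      · exact absurd huv (hlt v u h).ne'
    rw [← h0 x hxinj]
    refine Finset.sum_congr rfl (fun T _ => ?_)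
    congr 1
    refine Finset.prod_congr rfl (fun i _ => ?_)
    obtain ⟨b, rfl⟩ : ∃ b, a = b + 1 := ⟨a - 1, by omega⟩
    have hb : Odd b := by
      rcases Nat.even_or_odd b with h | h
      · exfalso
        have := h.add_one
        exact (Nat.not_even_iff_odd.2 this) ha
      · exact h
    simp only [Nat.add_sub_cancel]
    split_ifs with h
    · rw [abs_of_pos (sub_pos.2 (hlt _ _ h)), one_mul, pow_succ]
    · have h1 : y (hd i) < y (tl i) := by
        have : y (hd i) ≠ y (tl i) := fun h0 => hne i (hy h0)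
        omega
      rw [abs_of_neg (sub_neg.2 (hlt _ _ h1)), hb.neg_pow, pow_succ]
      ring
  rw [← hQ, hQ0, map_zero]

/-- all relations vanish on trees. -/
theorem Lc_mon {a : ℕ} (ha : Even a) (ha2 : 2 ≤ a) (hd tl : I → V) (hne : ∀ i, hd i ≠ tl i)
    (hinj : Injective (fun i => s(hd i, tl i))) (c : Finset I → ℝ)
    (hc : ∀ T, c T ≠ 0 → T.card + 1 = Fintype.card V)
    (h0 : ∀ x : V → ℝ, Injective x → ∑ T : Finset I, c T *
      ∏ i ∈ T, (|x (hd i) - x (tl i)| ^ (a - 1) * (x (hd i) - x (tl i))) = 0)
    {r : V} {f : V → V} (hf : TF univ r f) : Lc c (mon (zz hd tl) univ r f) = 0 := by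
  have hz := zz_neg hd tl
  have hkill : ∀ p, Fil (Fintype.card V) p → Lc c p = 0 := by
    intro p hp
    rw [Lc_apply]
    refine Finset.sum_eq_zero (fun T _ => ?_)
    by_cases hT : c T = 0
    · rw [hT, zero_mul]
    · rw [hp (ind T) (by rw [ind_degree, ← hc T hT]; omega), mul_zero]
  have hP : ∀ F : Lam V, F.Valid → F.leaves = univ → ∀ x : V → ℝ,
      Lc c (F.P a (zz hd tl) x) = 0 := by
    intro F hF hl x
    have h1 : Lc c (F.O a (zz hd tl) x * 1) = 0 := by
      refine flips ha (zz hd tl) hz x (Lc c) F hF 1 ?_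
      intro y hy
      rw [mul_one, hl]
      refine Lc_EA ha ha2 hd tl hne hinj c h0 ?_ x
      intro u v huv
      exact hy (by rw [hl]; simp) (by rw [hl]; simp) huv
    rw [mul_one] at h1
    have h2 := hkill _ ((O_fil a (zz hd tl) (zz_fil hd tl) x F).mono (by
      rw [Lam.rk_card F hF, hl, Finset.card_univ]))
    rw [map_sub, h1, map_smul, zero_sub, neg_eq_zero, smul_eq_mul] at h2
    exact (mul_eq_zero.1 h2).resolve_left (by positivity)
  let Λ : V → MvPolynomial I ℝ →ₗ[ℝ] ℝ := fun w => if w = r then Lc c else 0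
  have hnull : Null a (zz hd tl) univ Λ := by
    intro F hF hl x
    refine Finset.sum_eq_zero (fun w _ => ?_)
    simp only [Λ]
    split_ifs
    · rw [hP F hF hl x, mul_zero]
    · simp
  have := indep_all ha2 (zz hd tl) hz _ univ rfl Λ hnull r f hf r (Finset.mem_univ _)
  simpa [Λ] using this

end Edges

end Pool.Agent.Work.MP_3a76b1_co
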